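import Pool.Agent.Q294.Cookie.Det

/-!
# Sequences of independent variables: first step analysis; fair coins
-/

open MeasureTheory ProbabilityTheory Filter Topology

namespace Q294.Cookie

/-- put `a` in front of the sequence `f` -/
def cons {α : Type*} (a : α) (f : ℕ → α) : ℕ → α
  | 0 => a
  | n + 1 => f n

lemma measurable_cons {α : Type*} [MeasurableSpace α] :
    Measurable fun p : α × (ℕ → α) => cons p.1 p.2 := by
  refine measurable_pi_iff.mpr fun n => ?_
  cases n with
  | zero => exact measurable_fst
  | succ n => exact (measurable_pi_apply n).comp measurable_snd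

lemma cons_law {α : Type*} [MeasurableSpace α] (μ : Measure α) [IsProbabilityMeasure μ] :
    (μ.prod (Measure.infinitePi fun _ : ℕ => μ)).map (fun p => cons p.1 p.2) =
      Measure.infinitePi fun _ : ℕ => μ := by
  classical
  refine Measure.eq_infinitePi (fun _ : ℕ => μ) fun s t ht => ?_
  rw [Measure.map_apply measurable_cons
    (MeasurableSet.pi (Finset.countable_toSet s) fun i _ => ht i)]
  -- enlarge the index set to a range
  obtain ⟨n, hn⟩ : ∃ n, s ⊆ Finset.range (n + 1) :=
    ⟨s.sup id, fun i hi => by
      rw [Finset.mem_range]; exact Nat.lt_succ_of_le (Finset.le_sup (f := id) hi)⟩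
  set t' : ℕ → Set α := fun i => if i ∈ s then t i else Set.univ with ht'
  have ht'm : ∀ i, MeasurableSet (t' i) := by
    intro i; simp only [ht']; split_ifs
    · exact ht i
    · exact MeasurableSet.univ
  have e1 : (fun p : α × (ℕ → α) => cons p.1 p.2) ⁻¹' (Set.pi (↑s) t) =
      (t' 0) ×ˢ (Set.pi (↑(Finset.range n)) (fun i => t' (i + 1))) := by
    ext ⟨a, f⟩
    simp only [Set.mem_preimage, Set.mem_pi, Finset.mem_coe, Set.mem_prod, Finset.mem_range]
    constructor
    · intro h
      refine ⟨?_, fun i _ => ?_⟩
      · simp only [ht']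
        split_ifs with h0
        · exact h 0 h0
        · trivial
      · simp only [ht']
        split_ifs with h0
        · exact h (i + 1) h0
        · trivial
    · rintro ⟨h0, h1⟩ i hi
      cases i with
      | zero =>
        have : a ∈ t 0 := by simpa [ht', hi] using h0
        exact this
      | succ i =>
        have := h1 i (by have := hn hi; rw [Finset.mem_range] at this; omega)
        have : f i ∈ t (i + 1) := by simpa [ht', hi] using this
        exact this
  rw [e1, Measure.prod_prod, Measure.infinitePi_pi _ (fun i _ => ht'm (i + 1))]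
  have e2 : ∏ i ∈ s, μ (t i) = ∏ i ∈ Finset.range (n + 1), μ (t' i) := by
    rw [← Finset.prod_subset hn]
    · refine Finset.prod_congr rfl fun i hi => by simp [ht', hi]
    · intro i _ hi
      simp [ht', hi]
  rw [e2, Finset.prod_range_succ']
  rw [mul_comm]

lemma integral_cons {α : Type*} [MeasurableSpace α] (μ : Measure α) [IsProbabilityMeasure μ]
    {F : (ℕ → α) → ℝ} (hF : Measurable F) (hb : ∀ f, |F f| ≤ 1) :
    ∫ f, F f ∂(Measure.infinitePi fun _ : ℕ => μ) =
      ∫ a, ∫ f, F (cons a f) ∂(Measure.infinitePi fun _ : ℕ => μ) ∂μ := by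
  conv_lhs => rw [← cons_law μ]
  rw [integral_map measurable_cons.aemeasurable hF.aestronglyMeasurable]
  rw [integral_prod (f := fun p : α × (ℕ → α) => F (cons p.1 p.2))]
  refine Integrable.of_bound (C := 1) (hF.comp measurable_cons).aestronglyMeasurable ?_
  exact ae_of_all _ fun p => by simpa using hb _

/-- fair coin -/
noncomputable def fair : Measure Bool := (PMF.uniformOfFintype Bool).toMeasure

instance : IsProbabilityMeasure fair := by unfold fair; infer_instance

lemma fair_singleton (b : Bool) : fair {b} = 2⁻¹ := by
  rw [fair, PMF.toMeasure_apply_singleton _ _ (measurableSet_singleton b),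
    PMF.uniformOfFintype_apply]
  simp

lemma integral_fair (F : Bool → ℝ) : ∫ b, F b ∂fair = (F true + F false) / 2 := by
  rw [integral_fintype (Integrable.of_finite)]
  simp only [Fintype.sum_bool, Measure.real, fair_singleton]
  simp
  ring

/-- the law of a sequence of fair coins -/
noncomputable def Q : Measure (ℕ → Bool) := Measure.infinitePi fun _ : ℕ => fair

instance : IsProbabilityMeasure Q := by unfold Q; infer_instance

lemma suc_cons (b : Bool) (f : ℕ → Bool) (j : ℕ) :
    suc (cons b f) (j + 1) = (if b = true then 1 else 0) + suc f j := by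
  induction j with
  | zero =>
    rw [suc_succ, suc_zero, suc_zero]
    show 0 + (if b = true then 1 else 0) = _
    omega
  | succ j ih =>
    rw [suc_succ, ih, suc_succ]
    show _ + (if f j = true then 1 else 0) = _
    omega

lemma W_zero (f : ℕ → Bool) : W 0 f = 0 := by
  unfold W
  simp

/-- the `k`-th success exists -/
def Ex (k : ℕ) (f : ℕ → Bool) : Prop := ∃ j, k ≤ suc f j

lemma W_cons_true {k : ℕ} {f : ℕ → Bool} (h : Ex k f) : W (k + 1) (cons true f) = W k f := by
  have h1 : sInf {j | k + 1 ≤ suc (cons true f) j} = sInf {j | k ≤ suc f j} + 1 := by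
    apply le_antisymm
    · apply Nat.sInf_le
      show k + 1 ≤ suc (cons true f) (sInf {j | k ≤ suc f j} + 1)
      rw [suc_cons]
      have : k ≤ suc f (sInf {j | k ≤ suc f j}) := Nat.sInf_mem h
      simp only [if_true]; omega
    · have hne : {j | k + 1 ≤ suc (cons true f) j}.Nonempty := by
        obtain ⟨j, hj⟩ := h
        exact ⟨j + 1, by show k + 1 ≤ _; rw [suc_cons]; simp only [if_true]; omega⟩
      have h2 : k + 1 ≤ suc (cons true f) (sInf {j | k + 1 ≤ suc (cons true f) j}) :=
        Nat.sInf_mem hne
      rcases hj : sInf {j | k + 1 ≤ suc (cons true f) j} with _ | j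
      · rw [hj, suc_zero] at h2; omega
      · rw [hj, suc_cons] at h2
        simp only [if_true] at h2
        have : sInf {j | k ≤ suc f j} ≤ j := Nat.sInf_le (show k ≤ suc f j by omega)
        omega
  unfold W
  rw [h1]
  omega

lemma W_cons_false {k : ℕ} {f : ℕ → Bool} (h : Ex (k + 1) f) :
    W (k + 1) (cons false f) = W (k + 1) f + 1 := by
  have h0 : k + 1 ≤ suc f (sInf {j | k + 1 ≤ suc f j}) := Nat.sInf_mem h
  have h3 := le_suc_self f (sInf {j | k + 1 ≤ suc f j})
  have h1 : sInf {j | k + 1 ≤ suc (cons false f) j} = sInf {j | k + 1 ≤ suc f j} + 1 := by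
    apply le_antisymm
    · apply Nat.sInf_le
      show k + 1 ≤ suc (cons false f) (sInf {j | k + 1 ≤ suc f j} + 1)
      rw [suc_cons]
      simp only [Bool.false_eq_true, if_false]; omega
    · have hne : {j | k + 1 ≤ suc (cons false f) j}.Nonempty := by
        obtain ⟨j, hj⟩ := h
        exact ⟨j + 1, by
          show k + 1 ≤ _; rw [suc_cons]; simp only [Bool.false_eq_true, if_false]; omega⟩
      have h2 : k + 1 ≤ suc (cons false f) (sInf {j | k + 1 ≤ suc (cons false f) j}) :=
        Nat.sInf_mem hne
      rcases hj : sInf {j | k + 1 ≤ suc (cons false f) j} with _ | j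
      · rw [hj, suc_zero] at h2; omega
      · rw [hj, suc_cons] at h2
        simp only [Bool.false_eq_true, if_false] at h2
        have : sInf {j | k + 1 ≤ suc f j} ≤ j := Nat.sInf_le (show k + 1 ≤ suc f j by omega)
        omega
  unfold W
  rw [h1]
  omega

/-! ### measurability -/

lemma measurable_suc (j : ℕ) : Measurable fun f : ℕ → Bool => suc f j := by
  induction j with
  | zero => simp only [suc_zero]; exact measurable_const
  | succ j ih =>
    simp only [suc_succ]
    refine ih.add ?_
    have h : Measurable fun f : ℕ → Bool => f j := measurable_pi_apply j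
    exact Measurable.ite (h (measurableSet_singleton true)) measurable_const measurable_const

lemma measurableSet_Ex (k : ℕ) : MeasurableSet {f : ℕ → Bool | Ex k f} := by
  unfold Ex
  have : {f : ℕ → Bool | ∃ j, k ≤ suc f j} = ⋃ j, {f | k ≤ suc f j} := by ext f; simp
  rw [this]
  exact MeasurableSet.iUnion fun j => measurableSet_le measurable_const (measurable_suc j)

lemma measurable_W (k : ℕ) : Measurable (W k) := by
  have h1 : Measurable fun f : ℕ → Bool => sInf {j | k ≤ suc f j} := by
    refine measurable_to_countable' fun n => ?_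
    have : (fun f : ℕ → Bool => sInf {j | k ≤ suc f j}) ⁻¹' {n} =
        ({f | k ≤ suc f n} ∩ ⋂ i ∈ Finset.range n, {f | suc f i < k}) ∪
          (if n = 0 then {f | Ex k f}ᶜ else ∅) := by
      ext f
      simp only [Set.mem_preimage, Set.mem_singleton_iff, Set.mem_union, Set.mem_inter_iff,
        Set.mem_iInter, Finset.mem_range, Set.mem_ofPred_eq]
      constructor
      · intro h
        by_cases hE : Ex k f
        · left
          have h1 : k ≤ suc f (sInf {j | k ≤ suc f j}) := Nat.sInf_mem hE
          rw [h] at h1
          refine ⟨h1, fun i hi => ?_⟩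
          by_contra hcon
          push Not at hcon
          have : sInf {j | k ≤ suc f j} ≤ i := Nat.sInf_le hcon
          omega
        · right
          have : {j | k ≤ suc f j} = ∅ := by
            ext j; simp only [Set.mem_ofPred_eq, Set.mem_empty_iff_false, iff_false]
            intro hj; exact hE ⟨j, hj⟩
          rw [this, Nat.sInf_empty] at h
          rw [if_pos h.symm]
          exact hE
      · rintro (⟨h1, h2⟩ | h)
        · apply le_antisymm
          · exact Nat.sInf_le h1
          · by_contra hcon
            push Not at hcon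
            have h3 : k ≤ suc f (sInf {j | k ≤ suc f j}) :=
              Nat.sInf_mem (s := {j | k ≤ suc f j}) ⟨n, h1⟩
            have := h2 _ hcon
            omega
        · split_ifs at h with h0
          · have : {j | k ≤ suc f j} = ∅ := by
              ext j; simp only [Set.mem_ofPred_eq, Set.mem_empty_iff_false, iff_false]
              intro hj; exact h ⟨j, hj⟩
            rw [this, Nat.sInf_empty, h0]
          · exact absurd h (Set.notMem_empty _)
    rw [this]
    refine MeasurableSet.union (MeasurableSet.inter
      (measurableSet_le measurable_const (measurable_suc n)) ?_) ?_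
    · exact Finset.measurableSet_biInter _ fun i _ =>
        measurableSet_lt (measurable_suc i) measurable_const
    · split_ifs
      · exact (measurableSet_Ex k).compl
      · exact MeasurableSet.empty
  exact (Measurable.of_discrete (f := fun n : ℕ => n - k)).comp h1

/-! ### fair coins -/

lemma Ex_cons_true {k : ℕ} {f : ℕ → Bool} : Ex (k + 1) (cons true f) ↔ Ex k f := by
  constructor
  · rintro ⟨j, hj⟩
    cases j with
    | zero => rw [suc_zero] at hj; omega
    | succ j => rw [suc_cons] at hj; exact ⟨j, by simp only [if_true] at hj; omega⟩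
  · rintro ⟨j, hj⟩
    exact ⟨j + 1, by rw [suc_cons]; simp only [if_true]; omega⟩

lemma Ex_cons_false {k : ℕ} {f : ℕ → Bool} : Ex (k + 1) (cons false f) ↔ Ex (k + 1) f := by
  constructor
  · rintro ⟨j, hj⟩
    cases j with
    | zero => rw [suc_zero] at hj; omega
    | succ j =>
      rw [suc_cons] at hj; exact ⟨j, by simp only [Bool.false_eq_true, if_false] at hj; omega⟩
  · rintro ⟨j, hj⟩
    exact ⟨j + 1, by rw [suc_cons]; simp only [Bool.false_eq_true, if_false]; omega⟩

lemma integral_Q_step {F : (ℕ → Bool) → ℝ} (hF : Measurable F) (hb : ∀ f, |F f| ≤ 1) :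
    ∫ f, F f ∂Q = (∫ f, F (cons true f) ∂Q + ∫ f, F (cons false f) ∂Q) / 2 := by
  unfold Q
  rw [integral_cons fair hF hb, integral_fair]

lemma ae_Ex (k : ℕ) : ∀ᵐ f ∂Q, Ex k f := by
  induction k with
  | zero => exact ae_of_all _ fun f => ⟨0, Nat.zero_le _⟩
  | succ k ih =>
    classical
    set F : (ℕ → Bool) → ℝ := fun f => if Ex (k + 1) f then 1 else 0 with hFdef
    have hF : Measurable F :=
      Measurable.ite (measurableSet_Ex (k + 1)) measurable_const measurable_const
    have hb : ∀ f, |F f| ≤ 1 := by intro f; simp only [hFdef]; split_ifs <;> simp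
    have h1 := integral_Q_step hF hb
    have h2 : ∫ f, F (cons true f) ∂Q = 1 := by
      have : (fun f => F (cons true f)) =ᵐ[Q] fun _ => 1 := by
        filter_upwards [ih] with f hf
        simp only [hFdef, Ex_cons_true, if_pos hf]
      rw [integral_congr_ae this]; simp
    have h3 : ∫ f, F (cons false f) ∂Q = ∫ f, F f ∂Q := by
      simp only [hFdef, Ex_cons_false]
    rw [h2, h3] at h1
    have h4 : ∫ f, F f ∂Q = 1 := by linarith
    have h5 : ∫ f, F f ∂Q = Q.real {f | Ex (k + 1) f} := by
      have : F = Set.indicator {f | Ex (k + 1) f} (fun _ => (1 : ℝ)) := by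
        ext f; simp only [hFdef, Set.indicator, Set.mem_ofPred_eq]
      rw [this, integral_indicator (measurableSet_Ex (k + 1))]
      simp
    rw [h5] at h4
    have h6 : Q {f | Ex (k + 1) f} = 1 := (ENNReal.toReal_eq_one_iff _).mp h4
    exact (mem_ae_iff_prob_eq_one (measurableSet_Ex (k + 1))).mpr h6

/-- generating function of the number of failures before the `k`-th success -/
theorem integral_pow_W {t : ℝ} (h0 : 0 ≤ t) (h1 : t ≤ 1) (k : ℕ) :
    ∫ f, t ^ W k f ∂Q = (1 / (2 - t)) ^ k := by
  induction k with
  | zero => simp [W_zero]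
  | succ k ih =>
    have hF : Measurable fun f => t ^ W (k + 1) f :=
      (Measurable.of_discrete (f := fun n : ℕ => t ^ n)).comp (measurable_W (k + 1))
    have hb : ∀ f, |t ^ W (k + 1) f| ≤ 1 := fun f => by
      rw [abs_of_nonneg (pow_nonneg h0 _)]; exact pow_le_one₀ h0 h1
    have h2 := integral_Q_step hF hb
    have h3 : ∫ f, t ^ W (k + 1) (cons true f) ∂Q = ∫ f, t ^ W k f ∂Q := by
      refine integral_congr_ae ?_
      filter_upwards [ae_Ex k] with f hf
      rw [W_cons_true hf]
    have h4 : ∫ f, t ^ W (k + 1) (cons false f) ∂Q = t * ∫ f, t ^ W (k + 1) f ∂Q := by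
      rw [← integral_const_mul]
      refine integral_congr_ae ?_
      filter_upwards [ae_Ex (k + 1)] with f hf
      rw [W_cons_false hf, pow_succ]; ring
    rw [h3, h4, ih] at h2
    rw [pow_succ]
    have h5 : (0 : ℝ) < 2 - t := by linarith
    have h6 : (2 - t) * ∫ f, t ^ W (k + 1) f ∂Q = (1 / (2 - t)) ^ k := by linarith
    rw [← h6]
    field_simp

end Q294.Cookie
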