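import Pool.Agent.Q294.Cookie.Geo

/-!
# The lower chain
-/

open MeasureTheory ProbabilityTheory Filter Topology

namespace Q294.Cookie

/-- Independent sites. `coin s` are the coins of the site, the successes of which are dominated by
those of the fair coins `f s` up to `N s`; traps of size `4 ^ i` have probability at least
`c / 8 ^ i`. -/
structure Data (S : Type) [MeasurableSpace S] where
  ν : Measure S
  prob : IsProbabilityMeasure ν
  coin : S → ℕ → Bool
  N : S → ℕ
  f : S → ℕ → Bool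
  meas_coin : Measurable coin
  meas_N : Measurable N
  meas_f : Measurable f
  dom : ∀ s j, suc (coin s) j ≤ suc (f s) j + N s
  law : ν.map (fun s => (N s, f s)) = (ν.map N).prod Q
  int : Integrable (fun s => (N s : ℝ)) ν
  c : ℝ
  c_pos : 0 < c
  trap : ∀ i : ℕ, c * (1 / 8) ^ i ≤ ν.real {s | ∀ j < 4 ^ i, coin s j = false}

attribute [instance] Data.prob

variable {S : Type} [MeasurableSpace S] (D : Data S)

namespace Data

/-- one step of the lower chain -/
noncomputable def h (s : S) (k : ℕ) : ℕ := W (k + 1 - D.N s) (D.f s) - D.N s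

noncomputable def nbar : ℝ := ∫ s, (D.N s : ℝ) ∂D.ν

lemma nbar_nonneg : 0 ≤ D.nbar := integral_nonneg fun _ => Nat.cast_nonneg _

lemma measurable_W2 : Measurable fun p : ℕ × (ℕ → Bool) => W p.1 p.2 :=
  measurable_from_prod_countable_right fun k => measurable_W k

lemma measurable_h : Measurable fun p : S × ℕ => D.h p.1 p.2 := by
  unfold h
  have h1 : Measurable fun p : S × ℕ => D.N p.1 := D.meas_N.comp measurable_fst
  have h2 : Measurable fun p : S × ℕ => p.2 + 1 - D.N p.1 := by
    have : Measurable fun q : ℕ × ℕ => q.1 + 1 - q.2 := Measurable.of_discrete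
    exact this.comp (measurable_snd.prodMk h1)
  have h3 : Measurable fun p : S × ℕ => W (p.2 + 1 - D.N p.1) (D.f p.1) :=
    measurable_W2.comp (h2.prodMk (D.meas_f.comp measurable_fst))
  have : Measurable fun q : ℕ × ℕ => q.1 - q.2 := Measurable.of_discrete
  exact this.comp (h3.prodMk h1)

lemma pow_sub_le {t : ℝ} (h0 : 0 ≤ t) (h1 : t ≤ 1) (a N : ℕ) :
    t ^ (a - N) ≤ t ^ a + (1 - t) * N := by
  have hB : ∀ n : ℕ, 1 - (1 - t) * n ≤ t ^ n := by
    intro n
    have := one_add_mul_le_pow (a := t - 1) (by linarith) n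
    have e : 1 + (t - 1) = t := by ring
    rw [e] at this
    linarith
  rcases le_total N a with h | h
  · have e : t ^ a = t ^ (a - N) * t ^ N := by rw [← pow_add]; congr 1; omega
    have h2 := hB N
    have h3 : 0 ≤ t ^ (a - N) := pow_nonneg h0 _
    have h4 : t ^ (a - N) ≤ 1 := pow_le_one₀ h0 h1
    have h5 : 0 ≤ (1 - t) * N := mul_nonneg (by linarith) (Nat.cast_nonneg _)
    rw [e]
    nlinarith
  · rw [show a - N = 0 by omega, pow_zero]
    have h2 := hB a
    have h3 : (a : ℝ) ≤ N := by exact_mod_cast h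
    nlinarith

theorem site_bound {t : ℝ} (h0 : 0 ≤ t) (h1 : t ≤ 1) (k : ℕ) :
    ∫ s, t ^ D.h s k ∂D.ν ≤ (1 / (2 - t)) ^ k + 2 * (1 - t) * D.nbar := by
  set g : ℝ := 1 / (2 - t) with hg
  have h2t : (0 : ℝ) < 2 - t := by linarith
  have hg0 : 0 ≤ g := by positivity
  have hg1 : g ≤ 1 := by rw [hg, div_le_one h2t]; linarith
  have hgt : 1 - g ≤ 1 - t := by
    have : t ≤ g := by
      rw [hg, le_div_iff₀ h2t]; nlinarith [sq_nonneg (1 - t)]
    linarith
  have hbdd : ∀ (u : S → ℕ), Measurable u → Integrable (fun s => t ^ u s) D.ν := by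
    intro u hu
    refine Integrable.of_bound (C := 1)
      ((Measurable.of_discrete (f := fun n : ℕ => t ^ n)).comp hu).aestronglyMeasurable ?_
    exact ae_of_all _ fun s => by
      rw [Real.norm_eq_abs, abs_of_nonneg (pow_nonneg h0 _)]; exact pow_le_one₀ h0 h1
  have hmW : Measurable fun s : S => W (k + 1 - D.N s) (D.f s) := by
    have h2 : Measurable fun s : S => k + 1 - D.N s :=
      (Measurable.of_discrete (f := fun n : ℕ => k + 1 - n)).comp D.meas_N
    exact measurable_W2.comp (h2.prodMk D.meas_f)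
  have hmh : Measurable fun s : S => D.h s k := D.measurable_h.comp (measurable_id.prodMk measurable_const)
  have e1 : ∫ s, t ^ D.h s k ∂D.ν ≤
      ∫ s, (t ^ W (k + 1 - D.N s) (D.f s) + (1 - t) * D.N s) ∂D.ν := by
    refine integral_mono (hbdd _ hmh) ((hbdd _ hmW).add (D.int.const_mul _)) fun s => ?_
    exact pow_sub_le h0 h1 _ _
  rw [integral_add (hbdd _ hmW) (D.int.const_mul _), integral_const_mul] at e1
  have e2 : ∫ s, t ^ W (k + 1 - D.N s) (D.f s) ∂D.ν = ∫ s, g ^ (k + 1 - D.N s) ∂D.ν := by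
    set φ : ℕ × (ℕ → Bool) → ℝ := fun p => t ^ W (k + 1 - p.1) p.2 with hφ
    have hφm : Measurable φ := by
      have h2 : Measurable fun p : ℕ × (ℕ → Bool) => k + 1 - p.1 :=
        (Measurable.of_discrete (f := fun n : ℕ => k + 1 - n)).comp measurable_fst
      exact (Measurable.of_discrete (f := fun n : ℕ => t ^ n)).comp
        (measurable_W2.comp (h2.prodMk measurable_snd))
    have h3 : ∫ s, t ^ W (k + 1 - D.N s) (D.f s) ∂D.ν =
        ∫ p, φ p ∂(D.ν.map (fun s => (D.N s, D.f s))) := by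
      rw [integral_map (D.meas_N.prodMk D.meas_f).aemeasurable hφm.aestronglyMeasurable]
    have : IsProbabilityMeasure (D.ν.map D.N) := Measure.isProbabilityMeasure_map D.meas_N.aemeasurable
    rw [h3, D.law, integral_prod]
    · simp only [hφ]
      simp_rw [integral_pow_W h0 h1]
      rw [integral_map D.meas_N.aemeasurable Measurable.of_discrete.aestronglyMeasurable]
    · refine Integrable.of_bound (C := 1) hφm.aestronglyMeasurable ?_
      exact ae_of_all _ fun p => by
        simp only [hφ]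
        rw [Real.norm_eq_abs, abs_of_nonneg (pow_nonneg h0 _)]; exact pow_le_one₀ h0 h1
  have e3 : ∫ s, g ^ (k + 1 - D.N s) ∂D.ν ≤ ∫ s, (g ^ (k + 1) + (1 - g) * D.N s) ∂D.ν := by
    refine integral_mono ?_ ((integrable_const _).add (D.int.const_mul _)) fun s => pow_sub_le hg0 hg1 _ _
    have h2 : Measurable fun s : S => g ^ (k + 1 - D.N s) :=
      (Measurable.of_discrete (f := fun n : ℕ => g ^ (k + 1 - n))).comp D.meas_N
    refine Integrable.of_bound (C := 1) h2.aestronglyMeasurable ?_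
    exact ae_of_all _ fun s => by
      rw [Real.norm_eq_abs, abs_of_nonneg (pow_nonneg hg0 _)]; exact pow_le_one₀ hg0 hg1
  rw [integral_add (integrable_const _) (D.int.const_mul _), integral_const_mul] at e3
  simp only [integral_const, probReal_univ, smul_eq_mul, one_mul] at e3
  have e4 : g ^ (k + 1) ≤ g ^ k := pow_le_pow_of_le_one hg0 hg1 (Nat.le_succ k)
  have hn := D.nbar_nonneg
  have e5 : (1 - g) * D.nbar ≤ (1 - t) * D.nbar := mul_le_mul_of_nonneg_right hgt hn
  unfold nbar at *
  rw [e2] at e1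
  linarith

/-- the lower chain along a sequence of sites -/
noncomputable def ch : ℕ → ℕ → (ℕ → S) → ℕ
  | 0, k, _ => k
  | j + 1, k, s => ch j (D.h (s 0) k) (fun i => s (i + 1))

lemma ch_succ (j : ℕ) : ∀ (k : ℕ) (s : ℕ → S), D.ch (j + 1) k s = D.h (s j) (D.ch j k s) := by
  induction j with
  | zero => intro k s; rfl
  | succ j ih =>
    intro k s
    show D.ch (j + 1) (D.h (s 0) k) (fun i => s (i + 1)) = _
    rw [ih]
    rfl

lemma measurable_ch (j : ℕ) : Measurable fun p : ℕ × (ℕ → S) => D.ch j p.1 p.2 := by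
  induction j with
  | zero => exact measurable_fst
  | succ j ih =>
    simp only [ch_succ]
    have h1 : Measurable fun p : ℕ × (ℕ → S) => p.2 j := (measurable_pi_apply j).comp measurable_snd
    exact D.measurable_h.comp (h1.prodMk ih)

/-- law of a sequence of independent sites -/
noncomputable def P1 : Measure (ℕ → S) := Measure.infinitePi fun _ : ℕ => D.ν

instance : IsProbabilityMeasure D.P1 := by unfold P1; infer_instance

/-- iterates of `t ↦ 1 / (2 - t)` -/
noncomputable def gg (u : ℝ) (j : ℕ) : ℝ := 1 - u / (1 + j * u)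

lemma gg_zero (u : ℝ) : gg u 0 = 1 - u := by simp [gg]

lemma gg_succ {u : ℝ} (hu : 0 ≤ u) (j : ℕ) : gg u (j + 1) = 1 / (2 - gg u j) := by
  unfold gg
  have h1 : (0 : ℝ) < 1 + j * u := by positivity
  have h2 : (0 : ℝ) < 1 + ((j + 1 : ℕ) : ℝ) * u := by positivity
  have h3 : 2 - (1 - u / (1 + j * u)) = (1 + ((j + 1 : ℕ) : ℝ) * u) / (1 + j * u) := by
    push_cast; field_simp; ring
  rw [h3]
  push_cast at h2 ⊢
  field_simp
  ring

lemma gg_nonneg {u : ℝ} (hu : 0 ≤ u) (hu1 : u ≤ 1) (j : ℕ) : 0 ≤ gg u j := by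
  unfold gg
  have h1 : (0 : ℝ) < 1 + j * u := by positivity
  rw [sub_nonneg, div_le_one h1]
  have : 0 ≤ (j : ℝ) * u := by positivity
  linarith

lemma gg_ge {u : ℝ} (hu : 0 ≤ u) (j : ℕ) : 1 - u ≤ gg u j := by
  unfold gg
  have h1 : (1 : ℝ) ≤ 1 + j * u := by
    have : 0 ≤ (j : ℝ) * u := by positivity
    linarith
  have := div_le_self hu h1
  linarith

lemma gg_le_one {u : ℝ} (hu : 0 ≤ u) (j : ℕ) : gg u j ≤ 1 := by
  unfold gg
  have : 0 ≤ u / (1 + j * u) := by positivity
  linarith

theorem chain_bound {u : ℝ} (hu : 0 ≤ u) (hu1 : u ≤ 1) (j : ℕ) :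
    ∀ k : ℕ, ∫ s, (1 - u) ^ D.ch j k s ∂D.P1 ≤ gg u j ^ k + 2 * j * u * D.nbar := by
  have ht0 : 0 ≤ 1 - u := by linarith
  have ht1 : 1 - u ≤ 1 := by linarith
  induction j with
  | zero => intro k; simp [ch, gg_zero]
  | succ j ih =>
    intro k
    have hF : Measurable fun s : ℕ → S => (1 - u) ^ D.ch (j + 1) k s :=
      (Measurable.of_discrete (f := fun n : ℕ => (1 - u) ^ n)).comp
        ((D.measurable_ch (j + 1)).comp (measurable_const.prodMk measurable_id))
    have hb : ∀ s : ℕ → S, |(1 - u) ^ D.ch (j + 1) k s| ≤ 1 := fun s => by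
      rw [abs_of_nonneg (pow_nonneg ht0 _)]; exact pow_le_one₀ ht0 ht1
    have h1 := integral_cons D.ν hF hb
    have h2 : ∀ (a : S) (s : ℕ → S), D.ch (j + 1) k (cons a s) = D.ch j (D.h a k) s :=
      fun a s => rfl
    simp only [h2] at h1
    have hm1 : Measurable fun a : S => ∫ s, (1 - u) ^ D.ch j (D.h a k) s ∂D.P1 := by
      have : Measurable fun n : ℕ => ∫ s, (1 - u) ^ D.ch j n s ∂D.P1 := Measurable.of_discrete
      exact this.comp (D.measurable_h.comp (measurable_id.prodMk measurable_const))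
    have hi1 : Integrable (fun a : S => ∫ s, (1 - u) ^ D.ch j (D.h a k) s ∂D.P1) D.ν := by
      refine Integrable.of_bound (C := 1) hm1.aestronglyMeasurable ?_
      refine ae_of_all _ fun a => ?_
      rw [Real.norm_eq_abs]
      have hle : ∀ s : ℕ → S, |(1 - u) ^ D.ch j (D.h a k) s| ≤ 1 := fun s => by
        rw [abs_of_nonneg (pow_nonneg ht0 _)]; exact pow_le_one₀ ht0 ht1
      calc |∫ s, (1 - u) ^ D.ch j (D.h a k) s ∂D.P1|
          ≤ ∫ s, |(1 - u) ^ D.ch j (D.h a k) s| ∂D.P1 := abs_integral_le_integral_abs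
        _ ≤ ∫ _, (1 : ℝ) ∂D.P1 := by
            refine integral_mono_of_nonneg (ae_of_all _ fun s => abs_nonneg _)
              (integrable_const _) (ae_of_all _ hle)
        _ = 1 := by simp
    have hm2 : Measurable fun a : S => gg u j ^ D.h a k :=
      (Measurable.of_discrete (f := fun n : ℕ => gg u j ^ n)).comp
        (D.measurable_h.comp (measurable_id.prodMk measurable_const))
    have hi2 : Integrable (fun a : S => gg u j ^ D.h a k) D.ν := by
      refine Integrable.of_bound (C := 1) hm2.aestronglyMeasurable ?_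
      refine ae_of_all _ fun a => ?_
      rw [Real.norm_eq_abs, abs_of_nonneg (pow_nonneg (gg_nonneg hu hu1 j) _)]
      exact pow_le_one₀ (gg_nonneg hu hu1 j) (gg_le_one hu j)
    have h3 : ∫ s, (1 - u) ^ D.ch (j + 1) k s ∂D.P1 ≤
        ∫ a, (gg u j ^ D.h a k + 2 * j * u * D.nbar) ∂D.ν := by
      show ∫ s, (1 - u) ^ D.ch (j + 1) k s ∂(Measure.infinitePi fun _ : ℕ => D.ν) ≤ _
      rw [h1]
      exact integral_mono hi1 (hi2.add (integrable_const _)) fun a => ih (D.h a k)
    rw [integral_add hi2 (integrable_const _)] at h3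
    simp only [integral_const, probReal_univ, smul_eq_mul, one_mul] at h3
    have h4 := D.site_bound (gg_nonneg hu hu1 j) (gg_le_one hu j) k
    rw [← gg_succ hu j] at h4
    have h5 : 2 * (1 - gg u j) * D.nbar ≤ 2 * u * D.nbar := by
      have := gg_ge hu j
      have := D.nbar_nonneg
      nlinarith
    push_cast
    linarith

/-- with `n` even, starting from `4 n`, the chain is at most `n` at time `j ≤ n / K` with
probability at most `2/5` -/
theorem prob_small {K n j : ℕ} (hK3 : 3 ≤ K) (hK : 40 * D.nbar ≤ K) (hn : 0 < n) (hj : j * K ≤ 2 * n) :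
    D.P1.real {s | D.ch j (4 * (2 * n)) s ≤ 2 * n} ≤ 2 / 5 := by
  set u : ℝ := 1 / ((2 * n : ℕ) : ℝ) with hu
  have hn' : (1 : ℝ) ≤ n := by exact_mod_cast hn
  have hu0 : 0 ≤ u := by positivity
  have hu1 : u ≤ 1 / 2 := by
    rw [hu]; push_cast
    rw [div_le_div_iff₀ (by positivity) (by norm_num)]; linarith
  have ht0 : 0 ≤ 1 - u := by linarith
  have ht1 : 1 - u ≤ 1 := by linarith
  have h1 := D.chain_bound hu0 (by linarith) j (4 * (2 * n))
  -- first term
  have hju : (j : ℝ) * u ≤ 1 / 3 := by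
    rw [hu]
    have h2 : (j : ℝ) * 3 ≤ ((2 * n : ℕ) : ℝ) := by
      exact_mod_cast (Nat.mul_le_mul_left j hK3).trans hj
    rw [mul_one_div, div_le_div_iff₀ (by positivity) (by norm_num)]
    linarith
  have h2 : gg u j ^ (4 * (2 * n)) ≤ 1 / 20 := by
    have h3 : gg u j ≤ Real.exp (-(u * (3 / 4))) := by
      have h4 : gg u j ≤ 1 - u * (3 / 4) := by
        unfold gg
        have h5 : (0 : ℝ) < 1 + j * u := by positivity
        have : u * (3 / 4) ≤ u / (1 + j * u) := by
          rw [le_div_iff₀ h5]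
          nlinarith
        linarith
      have := Real.add_one_le_exp (-(u * (3 / 4)))
      linarith
    calc gg u j ^ (4 * (2 * n)) ≤ Real.exp (-(u * (3 / 4))) ^ (4 * (2 * n)) :=
          pow_le_pow_left₀ (gg_nonneg hu0 (by linarith) j) h3 _
      _ = Real.exp (-3) := by
          rw [← Real.exp_nat_mul]
          congr 1
          rw [hu]; push_cast; field_simp
      _ ≤ 1 / 20 := by
          rw [Real.exp_neg, ← one_div]
          apply one_div_le_one_div_of_le (by norm_num)
          have h6 : Real.exp 3 = Real.exp 1 ^ 3 := by rw [← Real.exp_nat_mul]; norm_num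
          rw [h6]
          have h7 := Real.exp_one_gt_d9
          have h8 : (2.7182818283 : ℝ) ^ 3 ≤ Real.exp 1 ^ 3 :=
            pow_le_pow_left₀ (by norm_num) h7.le 3
          refine le_trans ?_ h8
          norm_num
  have h3 : 2 * (j : ℝ) * u * D.nbar ≤ 1 / 20 := by
    rw [hu]
    have h4 : (j : ℝ) * K ≤ ((2 * n : ℕ) : ℝ) := by exact_mod_cast hj
    have h5 := D.nbar_nonneg
    have h6 : (0 : ℝ) < ((2 * n : ℕ) : ℝ) := by positivity
    have h7 : 2 * (j : ℝ) * (1 / ((2 * n : ℕ) : ℝ)) * D.nbar = (2 * j * D.nbar) / ((2 * n : ℕ) : ℝ) := by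
      ring
    rw [h7, div_le_div_iff₀ h6 (by norm_num)]
    have h8 : (j : ℝ) * (40 * D.nbar) ≤ j * K := mul_le_mul_of_nonneg_left hK (Nat.cast_nonneg _)
    linarith
  have h4 : ∫ s, (1 - u) ^ D.ch j (4 * (2 * n)) s ∂D.P1 ≤ 1 / 10 := by linarith
  -- Markov
  have h5 : (1 / 4 : ℝ) ≤ (1 - u) ^ (2 * n) := by
    have h6 : (1 / 2 : ℝ) ≤ (1 - u) ^ n := by
      have h7 := one_add_mul_le_pow (a := -u) (by linarith) n
      have h8 : (n : ℝ) * u = 1 / 2 := by rw [hu]; push_cast; field_simp
      have h9 : (1 - u) ^ n = (1 + -u) ^ n := by ring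
      rw [h9]
      linarith
    rw [mul_comm, pow_mul]
    calc (1 / 4 : ℝ) = (1 / 2) ^ 2 := by norm_num
      _ ≤ ((1 - u) ^ n) ^ 2 := pow_le_pow_left₀ (by norm_num) h6 2
  have hmeas : MeasurableSet {s : ℕ → S | D.ch j (4 * (2 * n)) s ≤ 2 * n} := by
    have hm : Measurable fun s : ℕ → S => D.ch j (4 * (2 * n)) s :=
      (D.measurable_ch j).comp (measurable_const.prodMk measurable_id)
    exact measurableSet_le hm measurable_const
  have h6 : D.P1.real {s | D.ch j (4 * (2 * n)) s ≤ 2 * n} * (1 / 4) ≤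
      ∫ s, (1 - u) ^ D.ch j (4 * (2 * n)) s ∂D.P1 := by
    have h7 : ∫ s, Set.indicator {s | D.ch j (4 * (2 * n)) s ≤ 2 * n} (fun _ => (1 / 4 : ℝ)) s ∂D.P1
        = D.P1.real {s | D.ch j (4 * (2 * n)) s ≤ 2 * n} * (1 / 4) := by
      rw [integral_indicator hmeas]; simp
    rw [← h7]
    have hm : Measurable fun s : ℕ → S => (1 - u) ^ D.ch j (4 * (2 * n)) s :=
      (Measurable.of_discrete (f := fun n : ℕ => (1 - u) ^ n)).comp
        ((D.measurable_ch j).comp (measurable_const.prodMk measurable_id))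
    refine integral_mono ((integrable_const _).indicator hmeas) ?_ fun s => ?_
    · refine Integrable.of_bound (C := 1) hm.aestronglyMeasurable ?_
      exact ae_of_all _ fun s => by
        rw [Real.norm_eq_abs, abs_of_nonneg (pow_nonneg ht0 _)]; exact pow_le_one₀ ht0 ht1
    · by_cases hs : s ∈ {s | D.ch j (4 * (2 * n)) s ≤ 2 * n}
      · rw [Set.indicator_of_mem hs]
        exact h5.trans (pow_le_pow_of_le_one ht0 ht1 hs)
      · rw [Set.indicator_of_notMem hs]
        exact pow_nonneg ht0 _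
  linarith

/-- the area under the chain is large with probability at least one half -/
theorem prob_area {K n J : ℕ} (hK3 : 3 ≤ K) (hK : 40 * D.nbar ≤ K) (hn : 0 < n) (hJ0 : 0 < J)
    (hJ : J * K ≤ 2 * n) :
    D.P1.real {s | 5 * ∑ j ∈ Finset.range J, D.ch (j + 1) (4 * (2 * n)) s < J * (2 * n)} ≤ 1 / 2 := by
  classical
  set bad : ℕ → Set (ℕ → S) := fun j => {s | D.ch (j + 1) (4 * (2 * n)) s ≤ 2 * n} with hbad
  have hmb : ∀ j, MeasurableSet (bad j) := fun j => by
    have hm : Measurable fun s : ℕ → S => D.ch (j + 1) (4 * (2 * n)) s :=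
      (D.measurable_ch (j + 1)).comp (measurable_const.prodMk measurable_id)
    exact measurableSet_le hm measurable_const
  have hsub : {s : ℕ → S | 5 * ∑ j ∈ Finset.range J, D.ch (j + 1) (4 * (2 * n)) s < J * (2 * n)} ⊆
      {s | (4 / 5 * J : ℝ) ≤ ∑ j ∈ Finset.range J, (bad j).indicator (fun _ => (1 : ℝ)) s} := by
    intro s hs
    simp only [Set.mem_ofPred_eq] at hs ⊢
    have h1 : ∀ j ∈ Finset.range J, (2 * n : ℝ) * (1 - (bad j).indicator (fun _ => (1 : ℝ)) s) ≤
        D.ch (j + 1) (4 * (2 * n)) s := by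
      intro j _
      by_cases hs : s ∈ bad j
      · rw [Set.indicator_of_mem hs]; simp
      · rw [Set.indicator_of_notMem hs]
        simp only [hbad, Set.mem_ofPred_eq, not_le] at hs
        have : ((2 * n : ℕ) : ℝ) ≤ D.ch (j + 1) (4 * (2 * n)) s := by exact_mod_cast hs.le
        push_cast at this
        linarith
    have h2 := Finset.sum_le_sum h1
    rw [← Finset.mul_sum, Finset.sum_sub_distrib] at h2
    simp only [Finset.sum_const, Finset.card_range, nsmul_eq_mul, mul_one] at h2
    have h3 : (5 : ℝ) * ∑ j ∈ Finset.range J, (D.ch (j + 1) (4 * (2 * n)) s : ℝ) < J * (2 * n) := by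
      exact_mod_cast hs
    have hn' : (0 : ℝ) < n := by exact_mod_cast hn
    set B := ∑ j ∈ Finset.range J, (bad j).indicator (fun _ => (1 : ℝ)) s
    have h4 : 5 * ((2 * n : ℝ) * (J - B)) < J * (2 * n) := by linarith
    have h5 : (2 * n : ℝ) * (5 * (J - B) - J) < 0 := by linarith
    have h6 : 5 * (J - B) - J < 0 := by
      by_contra hcon
      push Not at hcon
      have : 0 ≤ (2 * n : ℝ) * (5 * (J - B) - J) := by positivity
      linarith
    linarith
  refine (measureReal_mono hsub).trans ?_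
  have hI : ∀ j, Integrable ((bad j).indicator (fun _ => (1 : ℝ))) D.P1 := fun j =>
    (integrable_const _).indicator (hmb j)
  have hMarkov := mul_meas_ge_le_integral_of_nonneg (μ := D.P1)
    (f := fun s => ∑ j ∈ Finset.range J, (bad j).indicator (fun _ => (1 : ℝ)) s)
    (ae_of_all _ fun s => Finset.sum_nonneg fun j _ => Set.indicator_nonneg (fun _ _ => zero_le_one) _)
    (integrable_finsetSum _ fun j _ => hI j) (4 / 5 * J : ℝ)
  rw [integral_finsetSum _ fun j _ => hI j] at hMarkov
  have hsum : ∑ j ∈ Finset.range J, ∫ s, (bad j).indicator (fun _ => (1 : ℝ)) s ∂D.P1 ≤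
      ∑ j ∈ Finset.range J, (2 / 5 : ℝ) := by
    refine Finset.sum_le_sum fun j hj => ?_
    rw [Finset.mem_range] at hj
    rw [integral_indicator (hmb j)]
    simp only [integral_const, MeasurableSet.univ, measureReal_restrict_apply, Set.univ_inter,
      smul_eq_mul, mul_one]
    exact D.prob_small hK3 hK hn ((Nat.mul_le_mul_right K (by omega)).trans hJ)
  simp only [Finset.sum_const, Finset.card_range, nsmul_eq_mul] at hsum
  have hJ' : (0 : ℝ) < J := by exact_mod_cast hJ0
  have h7 := hMarkov.trans hsum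
  rw [← mul_le_mul_iff_right₀ (show (0 : ℝ) < 4 / 5 * J by positivity)]
  have e : D.P1.real {s | (4 / 5 * J : ℝ) ≤ ∑ j ∈ Finset.range J, (bad j).indicator (fun _ => (1 : ℝ)) s}
    = (D.P1 {s | (4 / 5 * J : ℝ) ≤ ∑ j ∈ Finset.range J, (bad j).indicator (fun _ => (1 : ℝ)) s}).toReal := rfl
  rw [e]
  refine le_trans h7 ?_
  linarith

end Data

end Q294.Cookie
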