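import Mathlib

/-!
# Excited random walk on `ℤ` in an i.i.d. cookie environment
-/

open MeasureTheory ProbabilityTheory Filter Topology

namespace Q294.Cookie

/-- The data of a site: the stack of cookies `s.1 0, s.1 1, ...` and the uniform random variables
`s.2 0, s.2 1, ...` which are used at the first, second, ... visit to the site. -/
abbrev Site : Type := (ℕ → ℝ) × (ℕ → ℝ)

/-- the uniform distribution on `[0, 1]` -/
noncomputable def unif : Measure ℝ := volume.restrict (Set.Icc 0 1)

/-- The annealed law when the stacks are i.i.d. with law `μ`: the stacks are independent with law
`μ`, and the uniform random variables are independent of each other and of the stacks. -/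
noncomputable def annealed (μ : Measure (ℕ → ℝ)) : Measure (ℤ → Site) :=
  Measure.infinitePi (fun _ : ℤ => μ.prod (Measure.infinitePi fun _ : ℕ => unif))

open Classical in
/-- The excited random walk from `0`: current position, and number of previous visits to each site.
At the `(j+1)`-st visit to `x` the walk steps to `x + 1` if the uniform variable `(ω x).2 j` is
smaller than the cookie `(ω x).1 j`, hence with probability `(ω x).1 j`, and to `x - 1` otherwise. -/
noncomputable def walk (ω : ℤ → Site) : ℕ → ℤ × (ℤ → ℕ)
  | 0 => (0, fun _ => 0)
  | n + 1 =>
    let x := (walk ω n).1
    let l := (walk ω n).2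
    (if (ω x).2 (l x) < (ω x).1 (l x) then x + 1 else x - 1, Function.update l x (l x + 1))

/-- position after `n` steps -/
noncomputable def pos (ω : ℤ → Site) (n : ℕ) : ℤ := (walk ω n).1

end Q294.Cookie
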