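import Pool.Agent.Q294.Cookie.Defs

/-!
# Deterministic facts on walks driven by stacks of coins
-/

namespace Q294.Cookie

/-- walk driven by coins: position and local times -/
def cw (c : ℤ → ℕ → Bool) : ℕ → ℤ × (ℤ → ℕ)
  | 0 => (0, fun _ => 0)
  | n + 1 =>
    (if c (cw c n).1 ((cw c n).2 (cw c n).1) then (cw c n).1 + 1 else (cw c n).1 - 1,
      Function.update (cw c n).2 (cw c n).1 ((cw c n).2 (cw c n).1 + 1))

variable (c : ℤ → ℕ → Bool)

def xx (n : ℕ) : ℤ := (cw c n).1
def ll (n : ℕ) (y : ℤ) : ℕ := (cw c n).2 y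

/-- successes among the first `j` coins -/
def suc (f : ℕ → Bool) (j : ℕ) : ℕ := ((Finset.range j).filter fun i => f i = true).card

/-- failures among the first `j` coins -/
def fai (f : ℕ → Bool) (j : ℕ) : ℕ := ((Finset.range j).filter fun i => f i = false).card

lemma suc_add_fai (f : ℕ → Bool) (j : ℕ) : suc f j + fai f j = j := by
  unfold suc fai
  rw [show ((Finset.range j).filter fun i => f i = false) =
    ((Finset.range j).filter fun i => ¬ f i = true) by simp]
  rw [Finset.card_filter_add_card_filter_not]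
  simp

lemma suc_zero (f : ℕ → Bool) : suc f 0 = 0 := by simp [suc]
lemma fai_zero (f : ℕ → Bool) : fai f 0 = 0 := by simp [fai]

lemma suc_succ (f : ℕ → Bool) (j : ℕ) : suc f (j + 1) = suc f j + if f j = true then 1 else 0 := by
  unfold suc
  rw [Finset.range_add_one, Finset.filter_insert]
  split_ifs with h
  · rw [Finset.card_insert_of_notMem (by simp)]
  · simp

lemma fai_succ (f : ℕ → Bool) (j : ℕ) : fai f (j + 1) = fai f j + if f j = false then 1 else 0 := by
  unfold fai
  rw [Finset.range_add_one, Finset.filter_insert]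
  split_ifs with h
  · rw [Finset.card_insert_of_notMem (by simp)]
  · simp

lemma suc_mono (f : ℕ → Bool) : Monotone (suc f) :=
  monotone_nat_of_le_succ fun j => by rw [suc_succ]; omega

/-- right steps and left steps from `y` -/
def rr (n : ℕ) (y : ℤ) : ℕ := suc (c y) (ll c n y)
def lf (n : ℕ) (y : ℤ) : ℕ := fai (c y) (ll c n y)

lemma rr_add_lf (n : ℕ) (y : ℤ) : rr c n y + lf c n y = ll c n y := suc_add_fai _ _

lemma xx_succ (n : ℕ) : xx c (n + 1) = if c (xx c n) (ll c n (xx c n)) = true then xx c n + 1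
    else xx c n - 1 := rfl

lemma ll_succ (n : ℕ) (y : ℤ) : ll c (n + 1) y = ll c n y + if y = xx c n then 1 else 0 := by
  show Function.update (cw c n).2 (cw c n).1 ((cw c n).2 (cw c n).1 + 1) y = _
  unfold ll xx
  by_cases h : y = (cw c n).1
  · subst h; simp
  · rw [Function.update_of_ne h, if_neg h]; rfl

lemma rr_succ (n : ℕ) (y : ℤ) : rr c (n + 1) y =
    rr c n y + if y = xx c n ∧ c y (ll c n y) = true then 1 else 0 := by
  unfold rr
  rw [ll_succ]
  by_cases h : y = xx c n
  · simp only [h, true_and, if_true]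
    rw [suc_succ]
  · simp [h]

lemma lf_succ (n : ℕ) (y : ℤ) : lf c (n + 1) y =
    lf c n y + if y = xx c n ∧ c y (ll c n y) = false then 1 else 0 := by
  unfold lf
  rw [ll_succ]
  by_cases h : y = xx c n
  · simp only [h, true_and, if_true]
    rw [fai_succ]
  · simp [h]

/-- crossings of the edge `(y, y+1)` -/
lemma crossing (n : ℕ) (y : ℤ) : (rr c n y : ℤ) - lf c n (y + 1) =
    (if 0 ≤ y ∧ y < xx c n then 1 else 0) - (if xx c n ≤ y ∧ y < 0 then 1 else 0) := by
  induction n with
  | zero =>
    have h0 : xx c 0 = 0 := rfl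
    have h1 : ∀ y, ll c 0 y = 0 := fun y => rfl
    simp only [rr, lf, h1, suc_zero, fai_zero, h0]
    split_ifs <;> omega
  | succ n ih =>
    rw [rr_succ, lf_succ, xx_succ]
    push_cast
    by_cases h1 : y = xx c n
    · subst h1
      have h2 : ¬ (xx c n + 1 = xx c n) := by omega
      simp only [h2, false_and, if_false, true_and]
      rcases hc : c (xx c n) (ll c n (xx c n)) with _ | _
      · simp only [Bool.false_eq_true, if_false]
        split_ifs at ih ⊢ <;> omega
      · simp only [if_true]
        split_ifs at ih ⊢ <;> omega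
    · by_cases h2 : y + 1 = xx c n
      · rw [h2] at ih ⊢
        simp only [h1, false_and, if_false, true_and]
        rcases hc : c (xx c n) (ll c n (xx c n)) with _ | _
        · simp only [Bool.false_eq_true, if_false, if_true]
          split_ifs at ih ⊢ <;> omega
        · simp only [if_true, Bool.true_eq_false, if_false]
          split_ifs at ih ⊢ <;> omega
      · simp only [h1, h2, false_and, if_false]
        rcases hc : c (xx c n) (ll c n (xx c n)) with _ | _
        · simp only [Bool.false_eq_true, if_false]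
          split_ifs at ih ⊢ <;> omega
        · simp only [if_true]
          split_ifs at ih ⊢ <;> omega

lemma rr_eq {n : ℕ} {y : ℤ} (h0 : 0 ≤ y) (h1 : y < xx c n) : rr c n y = lf c n (y + 1) + 1 := by
  have := crossing c n y
  rw [if_pos ⟨h0, h1⟩, if_neg (by omega)] at this
  omega

lemma sum_ll_le (S : Finset ℤ) (n : ℕ) : ∑ y ∈ S, ll c n y ≤ n := by
  induction n with
  | zero => simp [ll, cw]
  | succ n ih =>
    simp_rw [ll_succ]
    rw [Finset.sum_add_distrib, Finset.sum_ite_eq']
    split_ifs <;> omega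

/-- a trap: if the first `m` coins at `x` are failures and the walk has passed `x`, it has made at
least `m` steps to the left from `x` -/
lemma trap {n m : ℕ} {x : ℤ} (h0 : 0 ≤ x) (h1 : x < xx c n) (hm : ∀ i < m, c x i = false) :
    m ≤ lf c n x := by
  have h2 := rr_eq c h0 h1
  have h3 : m ≤ ll c n x := by
    by_contra hcon
    push Not at hcon
    have : rr c n x = 0 := by
      unfold rr suc
      rw [Finset.card_eq_zero, Finset.filter_eq_empty_iff]
      intro i hi
      rw [Finset.mem_range] at hi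
      rw [hm i (by omega)]
      simp
    omega
  unfold lf fai
  calc m = (Finset.range m).card := by simp
    _ ≤ _ := by
      refine Finset.card_le_card fun i hi => ?_
      rw [Finset.mem_range] at hi
      rw [Finset.mem_filter, Finset.mem_range]
      exact ⟨by omega, hm i hi⟩

/-- failures before the `k`-th success -/
noncomputable def W (k : ℕ) (f : ℕ → Bool) : ℕ := sInf {j | k ≤ suc f j} - k

lemma W_le {k j : ℕ} {f : ℕ → Bool} (h : k ≤ suc f j) : W k f ≤ j - k := by
  unfold W
  have : sInf {j | k ≤ suc f j} ≤ j := Nat.sInf_le h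
  omega

lemma suc_sub (f : ℕ → Bool) (j a : ℕ) : suc f j ≤ suc f (j - a) + a := by
  induction a generalizing j with
  | zero => simp
  | succ a ih =>
    rcases j with _ | j
    · simp [suc_zero]
    · have h1 := ih j
      have h2 : suc f (j + 1) ≤ suc f j + 1 := by rw [suc_succ]; split_ifs <;> omega
      rw [show j + 1 - (a + 1) = j - a by omega]
      omega

lemma le_suc_self (f : ℕ → Bool) (j : ℕ) : suc f j ≤ j := by
  have := suc_add_fai f j
  omega

lemma W_mono {k k' j : ℕ} {f : ℕ → Bool} (hk : k ≤ k') (h : k' ≤ suc f j) : W k f ≤ W k' f := by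
  have hne : {j | k' ≤ suc f j}.Nonempty := ⟨j, h⟩
  have h1 : k' ≤ suc f (sInf {j | k' ≤ suc f j}) := Nat.sInf_mem hne
  have h2 := suc_sub f (sInf {j | k' ≤ suc f j}) (k' - k)
  have h3 : k ≤ suc f (sInf {j | k' ≤ suc f j} - (k' - k)) := by omega
  have h4 := W_le h3
  unfold W at h4 ⊢
  omega

/-- lower bound for the number of left steps when the coins are dominated -/
lemma lf_ge {n N : ℕ} {y : ℤ} {f : ℕ → Bool} (hf : ∀ j, suc (c y) j ≤ suc f j + N) {k : ℕ}
    (hk : k ≤ rr c n y) : W (k - N) f - N ≤ lf c n y := by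
  have h1 : rr c n y - N ≤ suc f (ll c n y) := by
    have := hf (ll c n y)
    unfold rr
    omega
  have h2 : W (k - N) f ≤ W (rr c n y - N) f := W_mono (by omega) h1
  have h3 := W_le h1
  have h4 := rr_add_lf c n y
  omega

/-- the lower chain: lower bounds for the numbers of left steps from `x, x - 1, x - 2, ...` -/
noncomputable def ZZ (N : ℤ → ℕ) (f : ℤ → ℕ → Bool) (m : ℕ) (x : ℤ) : ℕ → ℕ
  | 0 => m
  | j + 1 => W (ZZ N f m x j + 1 - N (x - (j + 1))) (f (x - (j + 1))) - N (x - (j + 1))

lemma ZZ_le {N : ℤ → ℕ} {f : ℤ → ℕ → Bool} (hf : ∀ y j, suc (c y) j ≤ suc (f y) j + N y)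
    {n m : ℕ} {x : ℤ} (h1 : x < xx c n) (hm : ∀ i < m, c x i = false) (j : ℕ)
    (hj : (j : ℤ) ≤ x) : ZZ N f m x j ≤ lf c n (x - j) := by
  induction j with
  | zero =>
    simpa [ZZ] using trap c (by simpa using hj) h1 hm
  | succ j ih =>
    have ih' := ih (by push_cast at hj; omega)
    simp only [ZZ]
    have e : (x - ((j : ℤ) + 1)) + 1 = x - j := by ring
    have h2 := rr_eq c (n := n) (y := x - ((j : ℤ) + 1)) (by push_cast at hj; omega) (by omega)
    rw [e] at h2
    have := lf_ge c (n := n) (hf (x - ((j : ℤ) + 1))) (k := ZZ N f m x j + 1) (by omega)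
    simpa using this

theorem time_ge {N : ℤ → ℕ} {f : ℤ → ℕ → Bool} (hf : ∀ y j, suc (c y) j ≤ suc (f y) j + N y)
    {n m : ℕ} {x : ℤ} (h1 : x < xx c n) (hm : ∀ i < m, c x i = false) (J : ℕ) (hJ : (J : ℤ) ≤ x) :
    ∑ j ∈ Finset.range J, ZZ N f m x (j + 1) ≤ n := by
  have h2 : ∑ j ∈ Finset.range J, ZZ N f m x (j + 1) ≤
      ∑ y ∈ (Finset.range J).image (fun j : ℕ => x - ((j + 1 : ℕ) : ℤ)), ll c n y := by
    rw [Finset.sum_image (fun a _ b _ h => by simp at h; omega)]
    refine Finset.sum_le_sum fun j hj => ?_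
    rw [Finset.mem_range] at hj
    have h3 := ZZ_le c hf h1 hm (j + 1) (by push_cast; omega)
    have h4 := rr_add_lf c n (x - ((j + 1 : ℕ) : ℤ))
    omega
  exact h2.trans (sum_ll_le c _ n)

/-! ### reflection -/

lemma cw_reflect (n : ℕ) : (xx (fun y i => !(c (-y) i)) n = - xx c n) ∧
    ∀ y, ll (fun y i => !(c (-y) i)) n y = ll c n (-y) := by
  induction n with
  | zero => exact ⟨by simp [xx, cw], fun y => by simp [ll, cw]⟩
  | succ n ih =>
    obtain ⟨h1, h2⟩ := ih
    constructor
    · rw [xx_succ, xx_succ, h1, h2, neg_neg]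
      rcases hc : c (xx c n) (ll c n (xx c n)) with _ | _
      · simp; ring
      · simp; ring
    · intro y
      rw [ll_succ, ll_succ, h1, h2]
      congr 1
      by_cases h : y = - xx c n
      · rw [if_pos h, if_pos (by rw [h, neg_neg])]
      · rw [if_neg h, if_neg (by intro h'; apply h; rw [← h', neg_neg])]

end Q294.Cookie
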