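import Pool.Agent.Q294.Cookie.Chain

/-!
# The environment: independent sites indexed by `ℤ`
-/

open MeasureTheory ProbabilityTheory Filter Topology

namespace Q294.Cookie

namespace Data

variable {S : Type} [MeasurableSpace S] (D : Data S)

/-- law of independent sites indexed by `ℤ` -/
noncomputable def P2 : Measure (ℤ → S) := Measure.infinitePi fun _ : ℤ => D.ν

instance : IsProbabilityMeasure D.P2 := by unfold P2; infer_instance

/-- the σ-algebra of the coordinates in `A` -/
@[reducible] def sig (S : Type) [MeasurableSpace S] (A : Set ℤ) : MeasurableSpace (ℤ → S) :=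
  ⨆ i ∈ A, MeasurableSpace.comap (fun ω : ℤ → S => ω i) inferInstance

lemma sig_le (A : Set ℤ) : sig S A ≤ (inferInstance : MeasurableSpace (ℤ → S)) := by
  refine iSup₂_le fun i _ => ?_
  exact (measurable_pi_apply i).comap_le

lemma sig_mono {A B : Set ℤ} (h : A ⊆ B) : sig S A ≤ sig S B :=
  biSup_mono fun _ hi => h hi

lemma measurable_coord {A : Set ℤ} {i : ℤ} (hi : i ∈ A) :
    Measurable[sig S A] fun ω : ℤ → S => ω i := by
  have h1 : MeasurableSpace.comap (fun ω : ℤ → S => ω i) inferInstance ≤ sig S A :=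
    le_iSup₂_of_le i hi le_rfl
  exact Measurable.mono (comap_measurable fun ω : ℤ → S => ω i) h1 le_rfl

lemma indep {A B : Set ℤ} (h : Disjoint A B) : Indep (sig S A) (sig S B) D.P2 := by
  have h1 : iIndepFun (fun i (ω : ℤ → S) => ω i) D.P2 :=
    iIndepFun_infinitePi (X := fun _ ω => ω) (fun _ => measurable_id)
  exact indep_iSup_of_disjoint (fun i => (measurable_pi_apply i).comap_le) h1.iIndep h

/-- the coins of the environment -/
def env (ω : ℤ → S) : ℤ → ℕ → Bool := fun y => D.coin (ω y)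

/-- a trap of size `m` at a site -/
def tr (m : ℕ) : Set S := {s | ∀ j < m, D.coin s j = false}

lemma measurableSet_tr (m : ℕ) : MeasurableSet (D.tr m) := by
  have : D.tr m = ⋂ j : ℕ, ⋂ _ : j < m, {s | D.coin s j = false} := by
    ext s; simp [tr]
  rw [this]
  refine MeasurableSet.iInter fun j => MeasurableSet.iInter fun _ => ?_
  exact ((measurable_pi_apply j).comp D.meas_coin) (measurableSet_singleton false)

/-- the sites to the left of `x` -/
def left (x : ℤ) (ω : ℤ → S) : ℕ → S := fun i => ω (x - 1 - i)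

lemma ZZ_eq (m : ℕ) (x : ℤ) (ω : ℤ → S) (j : ℕ) :
    ZZ (fun y => D.N (ω y)) (fun y => D.f (ω y)) m x j = D.ch j m (left x ω) := by
  induction j with
  | zero => rfl
  | succ j ih =>
    rw [ch_succ, ← ih]
    have e : left x ω j = ω (x - ((j : ℤ) + 1)) := by
      unfold left
      congr 1
      ring
    rw [e]
    rfl

lemma map_left (x : ℤ) : D.P2.map (left x) = D.P1 := by
  have hinj : Function.Injective (fun i : ℕ => x - 1 - (i : ℤ)) := fun a b h => by
    simpa using h
  exact Measure.map_infinitePi_infinitePi_of_inj (P := fun _ : ℤ => D.ν) hinj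

/-- the area to the left of `x` is small -/
def small (m J A : ℕ) (x : ℤ) : Set (ℤ → S) :=
  {ω | 5 * ∑ j ∈ Finset.range J, D.ch (j + 1) m (left x ω) < A}

lemma ch_congr (j : ℕ) : ∀ (m : ℕ) (s t : ℕ → S), (∀ i < j, s i = t i) → D.ch j m s = D.ch j m t := by
  induction j with
  | zero => intro m s t _; rfl
  | succ j ih =>
    intro m s t h
    rw [ch_succ, ch_succ, ih m s t fun i hi => h i (by omega), h j (by omega)]

/-- measurability of the chain with respect to the coordinates it uses -/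
lemma measurable_ch_left {A : Set ℤ} (m : ℕ) (x : ℤ) (j : ℕ) (hA : ∀ i < j, x - 1 - (i : ℤ) ∈ A) :
    Measurable[sig S A] fun ω : ℤ → S => D.ch j m (left x ω) := by
  induction j with
  | zero => exact @measurable_const _ _ _ (sig S A) _
  | succ j ih =>
    simp only [ch_succ]
    have h1 : Measurable[sig S A] fun ω : ℤ → S => left x ω j :=
      measurable_coord (hA j (by omega))
    have h2 := ih fun i hi => hA i (by omega)
    exact D.measurable_h.comp (h1.prodMk h2)

lemma measurableSet_small {A : Set ℤ} (m J B : ℕ) (x : ℤ)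
    (hA : ∀ i < J, x - 1 - (i : ℤ) ∈ A) : MeasurableSet[sig S A] (D.small m J B x) := by
  have h1 : Measurable[sig S A] fun ω : ℤ → S =>
      5 * ∑ j ∈ Finset.range J, D.ch (j + 1) m (left x ω) := by
    refine Measurable.const_mul ?_ 5
    refine Finset.measurable_sum _ fun j hj => ?_
    rw [Finset.mem_range] at hj
    exact D.measurable_ch_left m x (j + 1) fun i hi => hA i (by omega)
  exact h1 (t := Set.Iio B) measurableSet_Iio

lemma prob_small_le {K n J : ℕ} (hK3 : 3 ≤ K) (hK : 40 * D.nbar ≤ K) (hn : 0 < n) (hJ0 : 0 < J)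
    (hJ : J * K ≤ 2 * n) (x : ℤ) :
    D.P2.real (D.small (4 * (2 * n)) J (J * (2 * n)) x) ≤ 1 / 2 := by
  have h1 := D.prob_area hK3 hK hn hJ0 hJ
  rw [← D.map_left x] at h1
  have hm : MeasurableSet {s : ℕ → S |
      5 * ∑ j ∈ Finset.range J, D.ch (j + 1) (4 * (2 * n)) s < J * (2 * n)} := by
    have h2 : Measurable fun s : ℕ → S =>
        5 * ∑ j ∈ Finset.range J, D.ch (j + 1) (4 * (2 * n)) s := by
      refine Measurable.const_mul ?_ 5
      refine Finset.measurable_sum _ fun j _ => ?_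
      exact (D.measurable_ch (j + 1)).comp (measurable_const.prodMk measurable_id)
    exact measurableSet_lt h2 measurable_const
  have hl : Measurable (left (S := S) x) := measurable_pi_lambda _ fun i => measurable_pi_apply _
  rw [map_measureReal_apply hl hm] at h1
  exact h1

/-- trap at `x` -/
def trapAt (m : ℕ) (x : ℤ) : Set (ℤ → S) := {ω | ω x ∈ D.tr m}

lemma measurableSet_trapAt {A : Set ℤ} (m : ℕ) {x : ℤ} (hx : x ∈ A) :
    MeasurableSet[sig S A] (D.trapAt m x) :=
  measurable_coord hx (D.measurableSet_tr m)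

/-- no good trap in the block `[s, s + l)` -/
def bad (m J B : ℕ) (s l : ℕ) : Set (ℤ → S) :=
  {ω | ∀ x ∈ Finset.Ico (s + J) (s + l), ω ∈ D.trapAt m x → ω ∈ D.small m J B x}

lemma measurableSet_bad {A : Set ℤ} (m J B : ℕ) (s l : ℕ) (hA : Set.Ico (s : ℤ) (s + l) ⊆ A) :
    MeasurableSet[sig S A] (D.bad m J B s l) := by
  have : D.bad m J B s l = ⋂ x ∈ Finset.Ico (s + J) (s + l),
      ((D.trapAt m x)ᶜ ∪ D.small m J B x) := by
    ext ω
    simp only [bad, Set.mem_ofPred_eq, Set.mem_iInter, Set.mem_union, Set.mem_compl_iff]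
    constructor
    · intro h x hx
      by_cases h1 : ω ∈ D.trapAt m x
      · exact Or.inr (h x hx h1)
      · exact Or.inl h1
    · intro h x hx h1
      exact (h x hx).resolve_left fun h2 => h2 h1
  rw [this]
  refine @Finset.measurableSet_biInter _ _ (sig S A) _ _ fun x hx => ?_
  rw [Finset.mem_Ico] at hx
  refine @MeasurableSet.union _ (sig S A) _ _ ?_ ?_
  · exact @MeasurableSet.compl _ _ (sig S A) (D.measurableSet_trapAt m (hA ⟨by omega, by omega⟩))
  · exact D.measurableSet_small m J B x fun i hi => hA ⟨by omega, by omega⟩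

theorem prob_bad {K n J : ℕ} (hK3 : 3 ≤ K) (hK : 40 * D.nbar ≤ K) (hn : 0 < n) (hJ0 : 0 < J)
    (hJ : J * K ≤ 2 * n) (s L : ℕ) :
    D.P2.real (D.bad (4 * (2 * n)) J (J * (2 * n)) s (J + L)) ≤
      (1 - D.ν.real (D.tr (4 * (2 * n)))) ^ L + 1 / 2 := by
  classical
  set m := 4 * (2 * n) with hm
  set I := Finset.Ico (s + J) (s + (J + L)) with hI
  set R : ℕ → Set (ℤ → S) := fun x => D.trapAt m x ∩
    ⋂ y ∈ Finset.Ioo x (s + (J + L)), (D.trapAt m (y : ℤ))ᶜ with hR
  have hRm : ∀ x : ℕ, MeasurableSet[sig S (Set.Ici (x : ℤ))] (R x) := by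
    intro x
    refine @MeasurableSet.inter _ (sig S _) _ _ (D.measurableSet_trapAt m Set.self_mem_Ici) ?_
    refine @Finset.measurableSet_biInter _ _ (sig S _) _ _ fun y hy => ?_
    rw [Finset.mem_Ioo] at hy
    refine @MeasurableSet.compl _ _ (sig S _) (D.measurableSet_trapAt m ?_)
    rw [Set.mem_Ici]; exact_mod_cast hy.1.le
  have hSm : ∀ x : ℕ, MeasurableSet[sig S (Set.Iio (x : ℤ))] (D.small m J (J * (2 * n)) x) := by
    intro x
    exact D.measurableSet_small m J _ x fun i _ => by rw [Set.mem_Iio]; omega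
  -- decomposition
  have hsub : D.bad m J (J * (2 * n)) s (J + L) ⊆
      (Set.pi (I.image (fun x : ℕ => (x : ℤ)) : Finset ℤ) fun _ => (D.tr m)ᶜ) ∪
        ⋃ x ∈ I, (R x ∩ D.small m J (J * (2 * n)) x) := by
    intro ω hω
    by_cases hT : ∃ x ∈ I, ω ∈ D.trapAt m (x : ℤ)
    · right
      obtain ⟨x, hx, hmax⟩ := (I.filter fun x : ℕ => ω ∈ D.trapAt m (x : ℤ)).exists_max_image id
        (by obtain ⟨x, hx, h⟩ := hT; exact ⟨x, Finset.mem_filter.mpr ⟨hx, h⟩⟩)
      rw [Finset.mem_filter] at hx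
      refine Set.mem_iUnion₂.mpr ⟨x, hx.1, ⟨hx.2, ?_⟩, ?_⟩
      · refine Set.mem_iInter₂.mpr fun y hy => ?_
        intro hcon
        rw [Finset.mem_Ioo] at hy
        have hxI := hx.1
        rw [hI, Finset.mem_Ico] at hxI
        have := hmax y (Finset.mem_filter.mpr ⟨Finset.mem_Ico.mpr ⟨by omega, hy.2⟩, hcon⟩)
        simp only [id] at this
        omega
      · exact hω x hx.1 hx.2
    · left
      push Not at hT
      intro y hy
      rw [Finset.mem_coe, Finset.mem_image] at hy
      obtain ⟨x, hx, rfl⟩ := hy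
      exact hT x hx
  have h1 : D.P2.real (Set.pi (I.image (fun x : ℕ => (x : ℤ)) : Finset ℤ) fun _ => (D.tr m)ᶜ) =
      (1 - D.ν.real (D.tr m)) ^ L := by
    have h2 := Measure.infinitePi_pi (μ := fun _ : ℤ => D.ν)
      (s := I.image (fun x : ℕ => (x : ℤ))) (t := fun _ => (D.tr m)ᶜ)
      (fun _ _ => (D.measurableSet_tr m).compl)
    have h3 : D.P2.real (Set.pi (I.image (fun x : ℕ => (x : ℤ)) : Finset ℤ) fun _ => (D.tr m)ᶜ) =
        (∏ _i ∈ I.image (fun x : ℕ => (x : ℤ)), D.ν (D.tr m)ᶜ).toReal := by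
      rw [← h2]; rfl
    rw [h3, Finset.prod_const, Finset.card_image_of_injective _ Nat.cast_injective, hI,
      Nat.card_Ico, ENNReal.toReal_pow]
    have h4 : (D.ν (D.tr m)ᶜ).toReal = 1 - D.ν.real (D.tr m) := by
      have := probReal_compl_eq_one_sub (μ := D.ν) (D.measurableSet_tr m)
      exact this
    rw [h4]
    congr 1
    omega
  have h2 : ∀ x : ℕ, D.P2.real (R x ∩ D.small m J (J * (2 * n)) x) ≤ 1 / 2 * D.P2.real (R x) := by
    intro x
    have hd : Disjoint (Set.Ici (x : ℤ)) (Set.Iio (x : ℤ)) := by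
      rw [Set.disjoint_left]
      intro a ha hb
      rw [Set.mem_Ici] at ha
      rw [Set.mem_Iio] at hb
      omega
    have h3 := (Indep_iff (sig S (Set.Ici (x : ℤ))) (sig S (Set.Iio (x : ℤ))) D.P2).mp (D.indep hd)
      (R x) (D.small m J (J * (2 * n)) x) (hRm x) (hSm x)
    have h4 : D.P2.real (R x ∩ D.small m J (J * (2 * n)) x) =
        D.P2.real (R x) * D.P2.real (D.small m J (J * (2 * n)) x) := by
      unfold Measure.real
      rw [h3, ENNReal.toReal_mul]
    rw [h4]
    have h5 := D.prob_small_le hK3 hK hn hJ0 hJ x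
    have h6 : 0 ≤ D.P2.real (R x) := measureReal_nonneg
    nlinarith
  have hRd : Set.PairwiseDisjoint (I : Set ℕ) R := by
    have key : ∀ x y : ℕ, x ∈ I → y ∈ I → x < y → Disjoint (R x) (R y) := by
      intro x y hx hy hxy
      rw [Set.disjoint_left]
      intro ω h1 h2
      have h3 := Set.mem_iInter₂.mp h1.2 y (by
        rw [hI, Finset.mem_Ico] at hy
        exact Finset.mem_Ioo.mpr ⟨hxy, hy.2⟩)
      exact h3 h2.1
    intro x hx y hy hxy
    rcases lt_or_gt_of_ne hxy with h | h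
    · exact key x y hx hy h
    · exact (key y x hy hx h).symm
  have h3 : ∑ x ∈ I, D.P2.real (R x) ≤ 1 := by
    rw [← measureReal_biUnion_finset hRd fun x _ => sig_le _ _ (hRm x)]
    exact measureReal_le_one
  calc D.P2.real (D.bad m J (J * (2 * n)) s (J + L))
      ≤ D.P2.real _ := measureReal_mono hsub
    _ ≤ D.P2.real (Set.pi (I.image (fun x : ℕ => (x : ℤ)) : Finset ℤ) fun _ => (D.tr m)ᶜ) +
        D.P2.real (⋃ x ∈ I, (R x ∩ D.small m J (J * (2 * n)) x)) := measureReal_union_le _ _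
    _ ≤ (1 - D.ν.real (D.tr m)) ^ L + ∑ x ∈ I, D.P2.real (R x ∩ D.small m J (J * (2 * n)) x) := by
        rw [h1]
        exact add_le_add le_rfl (measureReal_biUnion_finset_le _ _)
    _ ≤ (1 - D.ν.real (D.tr m)) ^ L + ∑ x ∈ I, 1 / 2 * D.P2.real (R x) :=
        add_le_add le_rfl (Finset.sum_le_sum fun x _ => h2 x)
    _ ≤ _ := by
        rw [← Finset.mul_sum]
        linarith

theorem prob_blocks {K n J : ℕ} (hK3 : 3 ≤ K) (hK : 40 * D.nbar ≤ K) (hn : 0 < n) (hJ0 : 0 < J)
    (hJ : J * K ≤ 2 * n) (L r : ℕ) :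
    D.P2.real (⋂ i ∈ Finset.range r, D.bad (4 * (2 * n)) J (J * (2 * n)) (i * (J + L)) (J + L)) ≤
      ((1 - D.ν.real (D.tr (4 * (2 * n)))) ^ L + 1 / 2) ^ r := by
  have hp0 : 0 ≤ 1 - D.ν.real (D.tr (4 * (2 * n))) := by
    have := measureReal_le_one (μ := D.ν) (s := D.tr (4 * (2 * n)))
    linarith
  induction r with
  | zero => simp
  | succ r ih =>
    set l := J + L with hl
    set A : Set (ℤ → S) := ⋂ i ∈ Finset.range r, D.bad (4 * (2 * n)) J (J * (2 * n)) (i * l) l with hA
    set B : Set (ℤ → S) := D.bad (4 * (2 * n)) J (J * (2 * n)) (r * l) l with hB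
    have e : (⋂ i ∈ Finset.range (r + 1), D.bad (4 * (2 * n)) J (J * (2 * n)) (i * l) l) = A ∩ B := by
      rw [Finset.range_add_one, Finset.set_biInter_insert, Set.inter_comm]
    rw [e]
    have hd : Disjoint (Set.Iio ((r * l : ℕ) : ℤ)) (Set.Ici ((r * l : ℕ) : ℤ)) := by
      rw [Set.disjoint_left]
      intro a ha hb
      rw [Set.mem_Ici] at hb
      rw [Set.mem_Iio] at ha
      omega
    have hmA : MeasurableSet[sig S (Set.Iio ((r * l : ℕ) : ℤ))] A := by
      refine @Finset.measurableSet_biInter _ _ (sig S _) _ _ fun i hi => ?_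
      rw [Finset.mem_range] at hi
      refine D.measurableSet_bad _ _ _ _ _ ?_
      intro y hy
      rw [Set.mem_Ico] at hy
      rw [Set.mem_Iio]
      have : (i + 1) * l ≤ r * l := Nat.mul_le_mul_right l hi
      have h3 : ((i * l : ℕ) : ℤ) + l ≤ ((r * l : ℕ) : ℤ) := by
        have : i * l + l ≤ r * l := by linarith
        exact_mod_cast this
      omega
    have hmB : MeasurableSet[sig S (Set.Ici ((r * l : ℕ) : ℤ))] B := by
      refine D.measurableSet_bad _ _ _ _ _ ?_
      intro y hy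
      rw [Set.mem_Ico] at hy
      rw [Set.mem_Ici]
      exact hy.1
    have h3 := (Indep_iff _ _ D.P2).mp (D.indep hd) A B hmA hmB
    have h4 : D.P2.real (A ∩ B) = D.P2.real A * D.P2.real B := by
      unfold Measure.real
      rw [h3, ENNReal.toReal_mul]
    rw [h4, pow_succ]
    have h5 := D.prob_bad hK3 hK hn hJ0 hJ (r * l) L
    exact mul_le_mul ih h5 measureReal_nonneg (by positivity)

/-- if the walk is fast then all blocks are bad -/
lemma fast_subset {n J l r k : ℕ} (hk : 5 * k < J * (2 * n)) :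
    {ω | ∃ i ≤ k, ((r * l : ℕ) : ℤ) ≤ xx (D.env ω) i} ⊆
      ⋂ i ∈ Finset.range r, D.bad (4 * (2 * n)) J (J * (2 * n)) (i * l) l := by
  rintro ω ⟨t, ht, hω⟩
  refine Set.mem_iInter₂.mpr fun i hi => ?_
  intro x hx htrap
  rw [Finset.mem_range] at hi
  rw [Finset.mem_Ico] at hx
  have h3 : ((i * l : ℕ) : ℤ) + l ≤ ((r * l : ℕ) : ℤ) := by
    have : (i + 1) * l ≤ r * l := Nat.mul_le_mul_right l hi
    have : i * l + l ≤ r * l := by linarith
    exact_mod_cast this
  have h4 := time_ge (D.env ω) (N := fun y => D.N (ω y)) (f := fun y => D.f (ω y))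
    (fun y j => D.dom (ω y) j) (n := t) (m := 4 * (2 * n)) (x := x) (by omega)
    (fun i hi => htrap i hi) J (by omega)
  simp only [ZZ_eq] at h4
  show 5 * ∑ j ∈ Finset.range J, D.ch (j + 1) (4 * (2 * n)) (left x ω) < J * (2 * n)
  omega

end Data

end Q294.Cookie
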