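import Pool.Agent.Q294.Cookie.Inst

/-!
# Zero speed with arbitrarily large drift
-/

open MeasureTheory ProbabilityTheory Filter Topology

namespace Q294.Cookie

/-- the coins of an environment -/
noncomputable def coins (ω : ℤ → Site) : ℤ → ℕ → Bool :=
  fun y j => decide ((ω y).2 j < (ω y).1 j)

lemma walk_eq (ω : ℤ → Site) (n : ℕ) : walk ω n = cw (coins ω) n := by
  induction n with
  | zero => rfl
  | succ n ih =>
    simp only [walk, cw, ih, coins, decide_eq_true_eq]

lemma pos_eq (ω : ℤ → Site) (n : ℕ) : pos ω n = xx (coins ω) n := by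
  unfold pos xx
  rw [walk_eq]

lemma measurable_coins : Measurable coins := by
  refine measurable_pi_iff.mpr fun y => measurable_pi_iff.mpr fun j => ?_
  have h1 : Measurable fun ω : ℤ → Site => (ω y).2 j :=
    (measurable_pi_apply j).comp (measurable_snd.comp (measurable_pi_apply y))
  have h2 : Measurable fun ω : ℤ → Site => (ω y).1 j :=
    (measurable_pi_apply j).comp (measurable_fst.comp (measurable_pi_apply y))
  exact measurable_dec (measurableSet_lt h1 h2)

lemma measurable_eval {X I : Type*} [MeasurableSpace X] [MeasurableSpace I] [Countable I]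
    [MeasurableSingletonClass I] : Measurable fun p : I × (I → X) => p.2 p.1 :=
  measurable_from_prod_countable_right fun y => measurable_pi_apply y

lemma measurable_cw (n : ℕ) : Measurable fun c : ℤ → ℕ → Bool => cw c n := by
  induction n with
  | zero => exact measurable_const
  | succ n ih =>
    have hx : Measurable fun c : ℤ → ℕ → Bool => (cw c n).1 := measurable_fst.comp ih
    have hl : Measurable fun c : ℤ → ℕ → Bool => (cw c n).2 := measurable_snd.comp ih
    have h1 : Measurable fun c : ℤ → ℕ → Bool => (cw c n).2 (cw c n).1 :=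
      measurable_eval.comp (hx.prodMk hl)
    have h2 : Measurable fun c : ℤ → ℕ → Bool => c (cw c n).1 :=
      measurable_eval.comp (hx.prodMk measurable_id)
    have h3 : Measurable fun c : ℤ → ℕ → Bool => c (cw c n).1 ((cw c n).2 (cw c n).1) :=
      measurable_eval.comp (h1.prodMk h2)
    refine Measurable.prodMk ?_ ?_
    · have : Measurable fun p : Bool × ℤ => if p.1 then p.2 + 1 else p.2 - 1 :=
        Measurable.of_discrete
      exact this.comp (h3.prodMk hx)
    · refine measurable_pi_iff.mpr fun y => ?_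
      have h4 : Measurable fun c : ℤ → ℕ → Bool => (cw c n).2 y := (measurable_pi_apply y).comp hl
      have h5 : Measurable fun p : ℤ × ℕ × ℕ => if y = p.1 then p.2.1 + 1 else p.2.2 :=
        Measurable.of_discrete
      have h6 : Measurable fun c : ℤ → ℕ → Bool =>
          if y = (cw c n).1 then (cw c n).2 (cw c n).1 + 1 else (cw c n).2 y :=
        h5.comp (hx.prodMk (h1.prodMk h4))
      have e : (fun c : ℤ → ℕ → Bool => (Function.update (cw c n).2 (cw c n).1
          ((cw c n).2 (cw c n).1 + 1)) y) =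
          fun c => if y = (cw c n).1 then (cw c n).2 (cw c n).1 + 1 else (cw c n).2 y := by
        funext c
        rw [Function.update_apply]
      exact e ▸ h6

lemma measurable_pos (n : ℕ) : Measurable fun ω : ℤ → Site => pos ω n := by
  simp_rw [pos_eq]
  exact measurable_fst.comp ((measurable_cw n).comp measurable_coins)

/-- from types to stacks -/
noncomputable def toSite (L : ℕ) (s : SS) : Site := (stk L s.1, s.2)

lemma measurable_toSite (L : ℕ) : Measurable (toSite L) :=
  ((measurable_stk L).comp measurable_fst).prodMk measurable_snd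

lemma nu_map (L : ℕ) : nu.map (toSite L) = (mu L).prod (Measure.infinitePi fun _ : ℕ => unif) := by
  have h := Measure.map_prod_map q U (measurable_stk L) measurable_id
  rw [Measure.map_id] at h
  exact h.symm

lemma annealed_eq (L : ℕ) : annealed (mu L) =
    (Measure.infinitePi fun _ : ℤ => nu).map (fun ω y => toSite L (ω y)) := by
  have h := Measure.infinitePi_map_pi (μ := fun _ : ℤ => nu) (Y := fun _ => Site)
    (f := fun _ => toSite L) (fun _ => measurable_toSite L)
  rw [h]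
  unfold annealed
  simp only [nu_map]

theorem upper (L : ℕ) {ε : ℝ} (hε : 0 < ε) : ∀ᵐ ω ∂(Measure.infinitePi fun _ : ℤ => nu),
    ∀ᶠ k : ℕ in atTop, (xx (fun y => co L (ω y)) k : ℝ) ≤ ε * k :=
  (D1 L).limsup_le hε

theorem lower (L : ℕ) (hL : 1 ≤ L) {ε : ℝ} (hε : 0 < ε) :
    ∀ᵐ ω ∂(Measure.infinitePi fun _ : ℤ => nu),
    ∀ᶠ k : ℕ in atTop, -(xx (fun y => co L (ω y)) k : ℝ) ≤ ε * k := by
  have h1 : ∀ᵐ ω ∂(Measure.infinitePi fun _ : ℤ => nu),
      ∀ᶠ k : ℕ in atTop, (xx (fun y j => !co L (ω y) j) k : ℝ) ≤ ε * k :=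
    (D2 L hL).limsup_le hε
  have hinj : Function.Injective (fun y : ℤ => -y) := neg_injective
  have h2 := Measure.map_infinitePi_infinitePi_of_inj (P := fun _ : ℤ => nu) hinj
  rw [← h2] at h1
  have hm : Measurable fun (ω : ℤ → SS) (y : ℤ) => ω (-y) :=
    measurable_pi_iff.mpr fun y => measurable_pi_apply _
  have h3 := ae_of_ae_map hm.aemeasurable h1
  filter_upwards [h3] with ω hω
  filter_upwards [hω] with k hk
  have h4 := (cw_reflect (fun y => co L (ω y)) k).1
  rw [h4] at hk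
  push_cast at hk
  exact hk

theorem speed (L : ℕ) (hL : 1 ≤ L) : ∀ᵐ ω ∂(annealed (mu L)),
    Tendsto (fun n : ℕ => (pos ω n : ℝ) / n) atTop (𝓝 0) := by
  have hm : MeasurableSet {ω : ℤ → Site | Tendsto (fun n : ℕ => (pos ω n : ℝ) / n) atTop (𝓝 0)} :=
    measurableSet_tendsto (𝓝 0) fun n =>
      ((Measurable.of_discrete (f := fun z : ℤ => (z : ℝ))).comp (measurable_pos n)).div_const _
  have hm2 : Measurable fun (ω : ℤ → SS) (y : ℤ) => toSite L (ω y) :=
    measurable_pi_iff.mpr fun y => (measurable_toSite L).comp (measurable_pi_apply y)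
  rw [annealed_eq, ae_map_iff hm2.aemeasurable hm]
  have h1 : ∀ᵐ ω ∂(Measure.infinitePi fun _ : ℤ => nu), ∀ m : ℕ,
      ∀ᶠ k : ℕ in atTop, (xx (fun y => co L (ω y)) k : ℝ) ≤ 1 / ((m : ℝ) + 1) * k :=
    ae_all_iff.mpr fun m => upper L (by positivity)
  have h2 : ∀ᵐ ω ∂(Measure.infinitePi fun _ : ℤ => nu), ∀ m : ℕ,
      ∀ᶠ k : ℕ in atTop, -(xx (fun y => co L (ω y)) k : ℝ) ≤ 1 / ((m : ℝ) + 1) * k :=
    ae_all_iff.mpr fun m => lower L hL (by positivity)
  filter_upwards [h1, h2] with ω hω1 hω2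
  rw [Metric.tendsto_atTop']
  intro ε hε
  obtain ⟨m, hm⟩ := exists_nat_one_div_lt hε
  obtain ⟨K, hK⟩ := eventually_atTop.mp ((hω1 m).and (hω2 m))
  refine ⟨K + 1, fun k hk => ?_⟩
  have hk0 : (0 : ℝ) < k := by exact_mod_cast (by omega : 0 < k)
  obtain ⟨h3, h4⟩ := hK k (by omega)
  have e : pos (fun y => toSite L (ω y)) k = xx (fun y => co L (ω y)) k := pos_eq _ _
  rw [dist_zero_right, Real.norm_eq_abs, abs_div, abs_of_pos hk0, e, div_lt_iff₀ hk0]
  have h5 : |(xx (fun y => co L (ω y)) k : ℝ)| ≤ 1 / ((m : ℝ) + 1) * k := abs_le'.mpr ⟨h3, h4⟩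
  have h6 : 1 / ((m : ℝ) + 1) * k < ε * k := mul_lt_mul_of_pos_right hm hk0
  linarith

theorem main (D : ℝ) : ∃ μ : Measure (ℕ → ℝ), IsProbabilityMeasure μ ∧
    (∀ᵐ s ∂μ, ∀ i, s i ∈ Set.Icc (0 : ℝ) 1) ∧
    0 < μ {s | ∀ i, 0 < s i} ∧ 0 < μ {s | ∀ i, s i < 1} ∧
    ∫⁻ s, ∑' i, ENNReal.ofReal |2 * s i - 1| ∂μ < ⊤ ∧
    Integrable (fun s => ∑' i, (2 * s i - 1)) μ ∧
    D < ∫ s, ∑' i, (2 * s i - 1) ∂μ ∧
    ∀ᵐ ω ∂(annealed μ), Tendsto (fun n : ℕ => (pos ω n : ℝ) / n) atTop (𝓝 0) := by
  obtain ⟨M, hM⟩ := exists_nat_gt (8 / 7 * D)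
  refine ⟨mu (M + 1), inferInstance, mu_mem _, mu_pos _, mu_lt_one _, mu_abs _, mu_int _, ?_,
    speed _ (by omega)⟩
  rw [mu_drift]
  push_cast
  linarith

end Q294.Cookie
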