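import Pool.Agent.Q294.Cookie.Law

/-!
# The two instances (the walk and its reflection)
-/

open MeasureTheory ProbabilityTheory Filter Topology

namespace Q294.Cookie

instance : IsProbabilityMeasure unif := ⟨by simp [unif]⟩

/-- independent uniform random variables -/
noncomputable def U : Measure (ℕ → ℝ) := Measure.infinitePi fun _ : ℕ => unif

instance : IsProbabilityMeasure U := by unfold U; infer_instance

/-- type of the site and uniform random variables -/
abbrev SS : Type := T × (ℕ → ℝ)

noncomputable def nu : Measure SS := q.prod U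

instance : IsProbabilityMeasure nu := by unfold nu; infer_instance

/-- the coins -/
noncomputable def co (L : ℕ) (s : SS) (j : ℕ) : Bool := decide (s.2 j < stk L s.1 j)

/-- the fair coins -/
noncomputable def ff (u : ℕ → ℝ) (j : ℕ) : Bool := decide (u j < 1 / 2)

lemma measurable_dec {X : Type*} [MeasurableSpace X] {p : X → Prop} [DecidablePred p]
    (hp : MeasurableSet {x | p x}) : Measurable fun x => decide (p x) := by
  refine measurable_to_bool ?_
  have : (fun x => decide (p x)) ⁻¹' {true} = {x | p x} := by
    ext x; simp
  rw [this]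
  exact hp

lemma measurable_not {X : Type*} [MeasurableSpace X] {f : X → Bool} (hf : Measurable f) :
    Measurable fun x => !f x :=
  (Measurable.of_discrete (f := fun b : Bool => !b)).comp hf

lemma measurable_ff : Measurable ff := by
  refine measurable_pi_iff.mpr fun j => ?_
  exact measurable_dec (measurableSet_lt (measurable_pi_apply j) measurable_const)

lemma measurable_stk' (L j : ℕ) : Measurable fun t : T => stk L t j := Measurable.of_discrete

lemma measurable_co (L : ℕ) : Measurable (co L) := by
  refine measurable_pi_iff.mpr fun j => ?_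
  exact measurable_dec (measurableSet_lt ((measurable_pi_apply j).comp measurable_snd)
    ((measurable_stk' L j).comp measurable_fst))

lemma unif_lt : unif {u : ℝ | u < 1 / 2} = 2⁻¹ := by
  unfold unif
  have hm : MeasurableSet {u : ℝ | u < 1 / 2} := measurableSet_lt measurable_id measurable_const
  rw [Measure.restrict_apply hm]
  have : {u : ℝ | u < 1 / 2} ∩ Set.Icc 0 1 = Set.Ico 0 (1 / 2) := by
    ext u
    simp only [Set.mem_inter_iff, Set.mem_ofPred_eq, Set.mem_Icc, Set.mem_Ico]
    constructor
    · rintro ⟨h1, h2, _⟩; exact ⟨h2, h1⟩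
    · rintro ⟨h1, h2⟩; exact ⟨h2, h1, by linarith⟩
  rw [this, Real.volume_Ico, sub_zero, one_div, ENNReal.ofReal_inv_of_pos (by norm_num)]
  norm_num

lemma unif_ge : unif {u : ℝ | ¬ u < 1 / 2} = 2⁻¹ := by
  have h1 := prob_compl_eq_one_sub (μ := unif) (s := {u : ℝ | u < 1 / 2})
    (measurableSet_lt measurable_id measurable_const)
  rw [unif_lt] at h1
  have h2 : {u : ℝ | u < 1 / 2}ᶜ = {u : ℝ | ¬ u < 1 / 2} := rfl
  rw [h2] at h1
  rw [h1]
  exact ENNReal.one_sub_inv_two

lemma unif_map : unif.map (fun u : ℝ => decide (u < 1 / 2)) = fair := by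
  have hm : Measurable fun u : ℝ => decide (u < 1 / 2) :=
    measurable_dec (measurableSet_lt measurable_id measurable_const)
  refine Measure.ext_of_singleton fun b => ?_
  rw [fair_singleton, Measure.map_apply hm (measurableSet_singleton b)]
  cases b with
  | false =>
    have : (fun u : ℝ => decide (u < 1 / 2)) ⁻¹' {false} = {u : ℝ | ¬ u < 1 / 2} := by
      ext u; simp
    rw [this, unif_ge]
  | true =>
    have : (fun u : ℝ => decide (u < 1 / 2)) ⁻¹' {true} = {u : ℝ | u < 1 / 2} := by
      ext u; simp
    rw [this, unif_lt]

lemma fair_map_not : fair.map (fun b => !b) = fair := by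
  have hm : Measurable fun b : Bool => !b := Measurable.of_discrete
  refine Measure.ext_of_singleton fun b => ?_
  rw [fair_singleton, Measure.map_apply hm (measurableSet_singleton b)]
  have : (fun b : Bool => !b) ⁻¹' {b} = {!b} := by
    ext x; cases x <;> cases b <;> simp
  rw [this, fair_singleton]

lemma U_map : U.map ff = Q := by
  have h := Measure.infinitePi_map_pi (μ := fun _ : ℕ => unif) (Y := fun _ => Bool)
    (f := fun _ (u : ℝ) => decide (u < 1 / 2))
    (fun _ => measurable_dec (measurableSet_lt measurable_id measurable_const))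
  simp only [unif_map] at h
  exact h

lemma U_map_not : U.map (fun u j => !ff u j) = Q := by
  have h := Measure.infinitePi_map_pi (μ := fun _ : ℕ => fair) (Y := fun _ => Bool)
    (f := fun _ (b : Bool) => !b) (fun _ => Measurable.of_discrete)
  simp only [fair_map_not] at h
  have h2 : Q.map (fun (f : ℕ → Bool) j => !f j) = Q := h
  have h3 : Measurable fun (f : ℕ → Bool) (j : ℕ) => !f j :=
    measurable_pi_iff.mpr fun j => measurable_not (measurable_pi_apply j)
  have h4 := Measure.map_map (μ := U) h3 measurable_ff
  rw [U_map, h2] at h4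
  exact h4.symm

lemma U_nonneg : ∀ᵐ u ∂U, ∀ j, 0 ≤ u j := by
  rw [ae_all_iff]
  intro j
  have h : ∀ᵐ x ∂unif, 0 ≤ x := by
    unfold unif
    exact (ae_restrict_mem measurableSet_Icc).mono fun x hx => hx.1
  have h2 : U.map (fun u => u j) = unif := Measure.infinitePi_map_eval (fun _ : ℕ => unif) j
  rw [← h2] at h
  exact ae_of_ae_map (measurable_pi_apply j).aemeasurable h

lemma U_lt : ∀ᵐ u ∂U, ∀ j, u j < 1 := by
  rw [ae_all_iff]
  intro j
  have h : ∀ᵐ x ∂unif, x < 1 := by
    have h1 : unif {x : ℝ | ¬ x < 1} = 0 := by
      unfold unif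
      have hm : MeasurableSet {x : ℝ | ¬ x < 1} :=
        (measurableSet_lt measurable_id measurable_const).compl
      rw [Measure.restrict_apply hm]
      have : {x : ℝ | ¬ x < 1} ∩ Set.Icc 0 1 = {1} := by
        ext x
        simp only [Set.mem_inter_iff, Set.mem_ofPred_eq, Set.mem_Icc, Set.mem_singleton_iff]
        constructor
        · rintro ⟨h1, _, h2⟩; linarith
        · rintro rfl; norm_num
      rw [this]
      simp
    exact h1
  have h2 : U.map (fun u => u j) = unif := Measure.infinitePi_map_eval (fun _ : ℕ => unif) j
  rw [← h2] at h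
  exact ae_of_ae_map (measurable_pi_apply j).aemeasurable h

lemma suc_dom {c f : ℕ → Bool} {N : ℕ} (h : ∀ j, N ≤ j → c j = true → f j = true) (j : ℕ) :
    suc c j ≤ suc f j + N := by
  unfold suc
  have h1 : (Finset.range j).filter (fun i => c i = true) ⊆
      (Finset.range j).filter (fun i => f i = true) ∪ Finset.range N := by
    intro i hi
    rw [Finset.mem_filter] at hi
    rw [Finset.mem_union, Finset.mem_filter]
    by_cases hN : i < N
    · exact Or.inr (Finset.mem_range.mpr hN)
    · exact Or.inl ⟨hi.1, h i (by omega) hi.2⟩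
  refine (Finset.card_le_card h1).trans ((Finset.card_union_le _ _).trans ?_)
  rw [Finset.card_range]

lemma nu_law {n : T → ℕ} {φ : (ℕ → ℝ) → ℕ → Bool} (hφ : Measurable φ) (h : U.map φ = Q) :
    nu.map (fun s : SS => (n s.1, φ s.2)) = (nu.map (fun s : SS => n s.1)).prod Q := by
  have hn : Measurable n := Measurable.of_discrete
  have e1 : nu.map (fun s : SS => n s.1) = q.map n := by
    have : (fun s : SS => n s.1) = n ∘ Prod.fst := rfl
    rw [this, ← Measure.map_map hn measurable_fst]
    unfold nu
    rw [Measure.map_fst_prod]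
    simp
  rw [e1, ← h, Measure.map_prod_map _ _ hn hφ]
  rfl

lemma nu_int {n : T → ℕ} (h1 : Summable fun j => wt j * (n (false, j) : ℝ))
    (h2 : Summable fun j => wt j * (n (true, j) : ℝ)) : Integrable (fun s : SS => (n s.1 : ℝ)) nu := by
  have h : Integrable (fun t : T => (n t : ℝ)) q := by
    unfold q
    refine Integrable.add_measure ?_ ?_
    · refine integrable_disc (f := fun t : T => (n t : ℝ)) wt_nonneg (fun j => (false, j)) ?_
      simpa using h1
    · refine integrable_disc (f := fun t : T => (n t : ℝ)) wt_nonneg (fun j => (true, j)) ?_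
      simpa using h2
  exact h.comp_fst U

lemma nu_trap (b : Bool) (i : ℕ) {p : (ℕ → ℝ) → Prop} (hp : ∀ᵐ u ∂U, p u) {s : Set SS}
    (hs : ∀ u, p u → ((b, i), u) ∈ s) : 7 / 16 * (1 / 8) ^ i ≤ nu.real s := by
  have h1 : U {u | p u} = 1 := by
    have : {u | p u} =ᵐ[U] (Set.univ : Set (ℕ → ℝ)) := by
      filter_upwards [hp] with u hu
      exact propext ⟨fun _ => trivial, fun _ => hu⟩
    rw [measure_congr this, measure_univ]
  have h2 : ({(b, i)} : Set T) ×ˢ {u | p u} ⊆ s := by
    rintro ⟨t, u⟩ ⟨h3, h4⟩
    rw [Set.mem_singleton_iff] at h3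
    simp only at h3 h4
    subst h3
    exact hs u h4
  have h3 : ENNReal.ofReal (wt i) ≤ nu s := by
    refine le_trans ?_ (measure_mono h2)
    unfold nu
    rw [Measure.prod_prod, h1, mul_one]
    exact q_pos b i _ rfl
  have h4 := ENNReal.toReal_mono (measure_ne_top nu s) h3
  rw [ENNReal.toReal_ofReal (wt_nonneg i)] at h4
  exact h4

/-- the walk -/
noncomputable def D1 (L : ℕ) : Data SS where
  ν := nu
  prob := inferInstance
  coin := co L
  N := fun s => if s.1.1 then L * 4 ^ s.1.2 else 0
  f := fun s => ff s.2
  meas_coin := measurable_co L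
  meas_N := by
    have : Measurable fun t : T => if t.1 then L * 4 ^ t.2 else 0 := Measurable.of_discrete
    exact this.comp measurable_fst
  meas_f := measurable_ff.comp measurable_snd
  dom := by
    rintro ⟨⟨b, i⟩, u⟩ j
    refine suc_dom (fun k hk hc => ?_) j
    simp only [co, ff, decide_eq_true_eq] at hc ⊢
    cases b with
    | false =>
      simp only [stk, Bool.false_eq_true, if_false] at hc
      split_ifs at hc <;> linarith
    | true =>
      simp only [if_true] at hk
      simp only [stk, if_true] at hc
      rw [if_neg (by omega)] at hc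
      exact hc
  law := nu_law (n := fun t : T => if t.1 then L * 4 ^ t.2 else 0) measurable_ff U_map
  int := by
    refine nu_int (n := fun t : T => if t.1 then L * 4 ^ t.2 else 0) ?_ ?_
    · simp
    · refine (hasSum_wt4.summable.mul_left (L : ℝ)).congr fun j => ?_
      simp
      ring
  c := 7 / 16
  c_pos := by norm_num
  trap := by
    intro i
    refine nu_trap false i U_nonneg fun u hu => ?_
    intro j hj
    simp only [co, stk, Bool.false_eq_true, if_false, if_pos hj, decide_eq_false_iff_not, not_lt]
    exact hu j

/-- the reflected walk -/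
noncomputable def D2 (L : ℕ) (hL : 1 ≤ L) : Data SS where
  ν := nu
  prob := inferInstance
  coin := fun s j => !co L s j
  N := fun s => if s.1.1 then 0 else 4 ^ s.1.2
  f := fun s j => !ff s.2 j
  meas_coin := measurable_pi_iff.mpr fun j =>
    measurable_not ((measurable_pi_apply j).comp (measurable_co L))
  meas_N := by
    have : Measurable fun t : T => if t.1 then 0 else 4 ^ t.2 := Measurable.of_discrete
    exact this.comp measurable_fst
  meas_f := measurable_pi_iff.mpr fun j =>
    measurable_not ((measurable_pi_apply j).comp (measurable_ff.comp measurable_snd))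
  dom := by
    rintro ⟨⟨b, i⟩, u⟩ j
    refine suc_dom (fun k hk hc => ?_) j
    simp only [co, ff, Bool.not_eq_true', decide_eq_false_iff_not, not_lt] at hc ⊢
    cases b with
    | false =>
      simp only [Bool.false_eq_true, if_false] at hk
      simp only [stk, Bool.false_eq_true, if_false] at hc
      rw [if_neg (by omega)] at hc
      exact hc
    | true =>
      simp only [stk, if_true] at hc
      split_ifs at hc <;> linarith
  law := nu_law (n := fun t : T => if t.1 then 0 else 4 ^ t.2) (φ := fun u j => !ff u j)
    (measurable_pi_iff.mpr fun j => measurable_not ((measurable_pi_apply j).comp measurable_ff))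
    U_map_not
  int := by
    refine nu_int (n := fun t : T => if t.1 then 0 else 4 ^ t.2) ?_ ?_
    · refine hasSum_wt4.summable.congr fun j => ?_
      simp
    · simp
  c := 7 / 16
  c_pos := by norm_num
  trap := by
    intro i
    refine nu_trap true i U_lt fun u hu => ?_
    intro j hj
    have : j < L * 4 ^ i := lt_of_lt_of_le hj (Nat.le_mul_of_pos_left _ hL)
    simp only [co, stk, if_true, if_pos this, Bool.not_eq_false', decide_eq_true_eq]
    exact hu j

end Q294.Cookie
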