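import Pool.Agent.Q294.Cookie.Lim

/-!
# The law of the stacks
-/

open MeasureTheory ProbabilityTheory Filter Topology

namespace Q294.Cookie

/-- countable sum of Dirac masses -/
noncomputable def disc {X : Type*} [MeasurableSpace X] (w : ℕ → ℝ) (a : ℕ → X) : Measure X :=
  Measure.sum fun j => ENNReal.ofReal (w j) • Measure.dirac (a j)

lemma disc_map {X Y : Type*} [MeasurableSpace X] [MeasurableSpace Y] (w : ℕ → ℝ) (a : ℕ → X)
    {φ : X → Y} (hφ : Measurable φ) : (disc w a).map φ = disc w (fun j => φ (a j)) := by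
  unfold disc
  rw [Measure.map_sum hφ.aemeasurable]
  congr 1
  funext j
  rw [Measure.map_smul, Measure.map_dirac' hφ]

lemma lintegral_disc {X : Type*} [MeasurableSpace X] [MeasurableSingletonClass X] (w : ℕ → ℝ)
    (a : ℕ → X) (f : X → ENNReal) :
    ∫⁻ x, f x ∂(disc w a) = ∑' j, ENNReal.ofReal (w j) * f (a j) := by
  unfold disc
  rw [lintegral_sum_measure]
  congr 1
  funext j
  rw [lintegral_smul_measure, lintegral_dirac, smul_eq_mul]

lemma disc_univ {X : Type*} [MeasurableSpace X] (w : ℕ → ℝ) (a : ℕ → X) :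
    disc w a Set.univ = ∑' j, ENNReal.ofReal (w j) := by
  unfold disc
  rw [Measure.sum_apply _ MeasurableSet.univ]
  simp

lemma integrable_disc {X : Type*} [MeasurableSpace X] [MeasurableSingletonClass X] {w : ℕ → ℝ}
    (hw : ∀ j, 0 ≤ w j) (a : ℕ → X) {f : X → ℝ} (hf : Summable fun j => w j * |f (a j)|) :
    Integrable f (disc w a) := by
  refine integrable_sum_dirac (fun j => ENNReal.ofReal_ne_top) ?_
  simpa [ENNReal.toReal_ofReal (hw _)] using hf

lemma integral_disc {X : Type*} [MeasurableSpace X] [MeasurableSingletonClass X] {w : ℕ → ℝ}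
    (hw : ∀ j, 0 ≤ w j) (a : ℕ → X) {f : X → ℝ} (hf : Summable fun j => w j * |f (a j)|) :
    ∫ x, f x ∂(disc w a) = ∑' j, w j * f (a j) := by
  have h1 := (hasSum_integral_measure (integrable_disc hw a hf)).tsum_eq
  have h2 : ∫ x, f x ∂(disc w a) = ∫ x, f x ∂(Measure.sum fun j =>
    ENNReal.ofReal (w j) • Measure.dirac (a j)) := rfl
  rw [h2, ← h1]
  congr 1
  funext j
  rw [integral_smul_measure, integral_dirac, ENNReal.toReal_ofReal (hw j), smul_eq_mul]

lemma disc_ge {X : Type*} [MeasurableSpace X] (w : ℕ → ℝ) (a : ℕ → X) (j : ℕ) (s : Set X)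
    (h : a j ∈ s) : ENNReal.ofReal (w j) ≤ disc w a s := by
  have h1 : (ENNReal.ofReal (w j) • Measure.dirac (a j)) s ≤ disc w a s :=
    Measure.le_sum (fun j => ENNReal.ofReal (w j) • Measure.dirac (a j)) j s
  refine le_trans ?_ h1
  rw [Measure.smul_apply, smul_eq_mul, Measure.dirac_apply_of_mem h, mul_one]

/-- weights -/
noncomputable def wt (j : ℕ) : ℝ := 7 / 16 * (1 / 8) ^ j

lemma wt_pos (j : ℕ) : 0 < wt j := by unfold wt; positivity
lemma wt_nonneg (j : ℕ) : 0 ≤ wt j := (wt_pos j).le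

lemma hasSum_wt : HasSum wt (1 / 2) := by
  have h := (hasSum_geometric_of_lt_one (r := 1 / 8) (by norm_num) (by norm_num)).mul_left (7 / 16 : ℝ)
  have e : (7 / 16 : ℝ) * (1 - 1 / 8)⁻¹ = 1 / 2 := by norm_num
  rw [e] at h
  exact h

lemma hasSum_wt4 : HasSum (fun j => wt j * 4 ^ j) (7 / 8) := by
  have h := (hasSum_geometric_of_lt_one (r := 1 / 2) (by norm_num) (by norm_num)).mul_left (7 / 16 : ℝ)
  have e : (7 / 16 : ℝ) * (1 - 1 / 2)⁻¹ = 7 / 8 := by norm_num
  rw [e] at h
  have e2 : (fun j => wt j * (4 : ℝ) ^ j) = fun j => (7 / 16 : ℝ) * (1 / 2) ^ j := by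
    funext j
    unfold wt
    rw [mul_assoc, ← mul_pow]
    norm_num
  rw [e2]
  exact h

lemma tsum_wt : ∑' j, ENNReal.ofReal (wt j) = 2⁻¹ := by
  rw [← ENNReal.ofReal_tsum_of_nonneg wt_nonneg hasSum_wt.summable, hasSum_wt.tsum_eq]
  rw [one_div, ENNReal.ofReal_inv_of_pos (by norm_num)]
  norm_num

/-- types of sites -/
abbrev T : Type := Bool × ℕ

/-- law of the type of a site -/
noncomputable def q : Measure T := disc wt (fun j => (false, j)) + disc wt (fun j => (true, j))

instance : IsProbabilityMeasure q := by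
  constructor
  unfold q
  rw [Measure.add_apply, disc_univ, disc_univ, tsum_wt]
  exact ENNReal.inv_two_add_inv_two

/-- the stack of a site of a given type: `4 ^ j` zeros, or `L * 4 ^ j` ones, followed by `1 / 2` -/
noncomputable def stk (L : ℕ) (t : T) : ℕ → ℝ := fun i =>
  if t.1 then (if i < L * 4 ^ t.2 then 1 else 1 / 2) else (if i < 4 ^ t.2 then 0 else 1 / 2)

lemma measurable_stk (L : ℕ) : Measurable (stk L) := Measurable.of_discrete

/-- the law of the stacks -/
noncomputable def mu (L : ℕ) : Measure (ℕ → ℝ) := q.map (stk L)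

instance (L : ℕ) : IsProbabilityMeasure (mu L) :=
  Measure.isProbabilityMeasure_map (measurable_stk L).aemeasurable

lemma mu_eq (L : ℕ) : mu L = disc wt (fun j => stk L (false, j)) + disc wt (fun j => stk L (true, j)) := by
  unfold mu q
  rw [Measure.map_add _ _ (measurable_stk L), disc_map _ _ (measurable_stk L),
    disc_map _ _ (measurable_stk L)]

lemma stk_mem (L : ℕ) (t : T) (i : ℕ) : stk L t i ∈ Set.Icc (0 : ℝ) 1 := by
  unfold stk
  split_ifs <;> constructor <;> norm_num

lemma mu_mem (L : ℕ) : ∀ᵐ s ∂(mu L), ∀ i, s i ∈ Set.Icc (0 : ℝ) 1 := by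
  have hm : MeasurableSet {s : ℕ → ℝ | ∀ i, s i ∈ Set.Icc (0 : ℝ) 1} := by
    have : {s : ℕ → ℝ | ∀ i, s i ∈ Set.Icc (0 : ℝ) 1} = ⋂ i, {s | s i ∈ Set.Icc (0 : ℝ) 1} := by
      ext s; simp
    rw [this]
    exact MeasurableSet.iInter fun i => (measurable_pi_apply i) measurableSet_Icc
  unfold mu
  rw [ae_map_iff (measurable_stk L).aemeasurable hm]
  exact ae_of_all _ fun t => stk_mem L t

lemma q_pos (b : Bool) (j : ℕ) (s : Set T) (h : (b, j) ∈ s) : ENNReal.ofReal (wt j) ≤ q s := by
  unfold q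
  rw [Measure.add_apply]
  cases b with
  | false => exact (disc_ge wt (fun j => (false, j)) j s h).trans le_self_add
  | true => exact (disc_ge wt (fun j => (true, j)) j s h).trans le_add_self

lemma mu_pos (L : ℕ) : 0 < mu L {s | ∀ i, 0 < s i} := by
  refine lt_of_lt_of_le ?_ (Measure.le_map_apply (measurable_stk L).aemeasurable _)
  refine lt_of_lt_of_le (ENNReal.ofReal_pos.mpr (wt_pos 0)) (q_pos true 0 _ ?_)
  intro i
  simp only [stk]
  split_ifs <;> norm_num

lemma mu_lt_one (L : ℕ) : 0 < mu L {s | ∀ i, s i < 1} := by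
  refine lt_of_lt_of_le ?_ (Measure.le_map_apply (measurable_stk L).aemeasurable _)
  refine lt_of_lt_of_le (ENNReal.ofReal_pos.mpr (wt_pos 0)) (q_pos false 0 _ ?_)
  intro i
  simp only [stk, Bool.false_eq_true, if_false]
  split_ifs <;> norm_num

lemma tsum_step (n : ℕ) (a : ℝ) : ∑' i, (if i < n then a else 0 : ℝ) = n * a := by
  rw [tsum_eq_sum (s := Finset.range n)]
  · rw [Finset.sum_congr rfl fun i hi => if_pos (Finset.mem_range.mp hi)]
    simp
  · intro i hi
    rw [Finset.mem_range] at hi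
    exact if_neg hi

lemma tsum_step' (n : ℕ) (a : ENNReal) : ∑' i, (if i < n then a else 0 : ENNReal) = n * a := by
  rw [tsum_eq_sum (s := Finset.range n)]
  · rw [Finset.sum_congr rfl fun i hi => if_pos (Finset.mem_range.mp hi)]
    simp
  · intro i hi
    rw [Finset.mem_range] at hi
    exact if_neg hi

lemma drift_false (L j : ℕ) : ∑' i, (2 * stk L (false, j) i - 1) = -(4 : ℝ) ^ j := by
  have : ∀ i, 2 * stk L (false, j) i - 1 = if i < 4 ^ j then (-1 : ℝ) else 0 := by
    intro i
    simp only [stk, Bool.false_eq_true, if_false]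
    split_ifs <;> norm_num
  simp_rw [this]
  rw [tsum_step]
  push_cast
  ring

lemma drift_true (L j : ℕ) : ∑' i, (2 * stk L (true, j) i - 1) = L * (4 : ℝ) ^ j := by
  have : ∀ i, 2 * stk L (true, j) i - 1 = if i < L * 4 ^ j then (1 : ℝ) else 0 := by
    intro i
    simp only [stk, if_true]
    split_ifs <;> norm_num
  simp_rw [this]
  rw [tsum_step]
  push_cast
  ring

lemma abs_false (L j : ℕ) : ∑' i, ENNReal.ofReal |2 * stk L (false, j) i - 1| = ENNReal.ofReal (4 ^ j) := by
  have : ∀ i, ENNReal.ofReal |2 * stk L (false, j) i - 1| = if i < 4 ^ j then (1 : ENNReal) else 0 := by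
    intro i
    simp only [stk, Bool.false_eq_true, if_false]
    split_ifs <;> norm_num
  simp_rw [this]
  rw [tsum_step', mul_one]
  rw [← ENNReal.ofReal_natCast]
  push_cast
  rfl

lemma abs_true (L j : ℕ) : ∑' i, ENNReal.ofReal |2 * stk L (true, j) i - 1| =
    ENNReal.ofReal (L * 4 ^ j) := by
  have : ∀ i, ENNReal.ofReal |2 * stk L (true, j) i - 1| =
      if i < L * 4 ^ j then (1 : ENNReal) else 0 := by
    intro i
    simp only [stk, if_true]
    split_ifs <;> norm_num
  simp_rw [this]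
  rw [tsum_step', mul_one]
  rw [← ENNReal.ofReal_natCast]
  push_cast
  rfl

lemma mu_abs (L : ℕ) : ∫⁻ s, ∑' i, ENNReal.ofReal |2 * s i - 1| ∂(mu L) < ⊤ := by
  rw [mu_eq, lintegral_add_measure, lintegral_disc, lintegral_disc]
  simp_rw [abs_false, abs_true, ← ENNReal.ofReal_mul (wt_nonneg _)]
  refine ENNReal.add_lt_top.mpr ⟨?_, ?_⟩
  · exact hasSum_wt4.summable.tsum_ofReal_lt_top
  · have : Summable fun j => wt j * (L * 4 ^ j) := by
      refine (hasSum_wt4.summable.mul_left (L : ℝ)).congr fun j => by ring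
    exact this.tsum_ofReal_lt_top

lemma summ_false (L : ℕ) : Summable fun j => wt j * |∑' i, (2 * stk L (false, j) i - 1)| := by
  refine hasSum_wt4.summable.congr fun j => ?_
  rw [drift_false, abs_neg, abs_of_nonneg (by positivity)]

lemma summ_true (L : ℕ) : Summable fun j => wt j * |∑' i, (2 * stk L (true, j) i - 1)| := by
  refine (hasSum_wt4.summable.mul_left (L : ℝ)).congr fun j => ?_
  rw [drift_true, abs_of_nonneg (by positivity)]
  ring

/-- total drift of a stack -/
noncomputable def dr (s : ℕ → ℝ) : ℝ := ∑' i, (2 * s i - 1)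

lemma int_false (L : ℕ) : Integrable dr (disc wt (fun j => stk L (false, j))) :=
  integrable_disc (f := dr) wt_nonneg (fun j => stk L (false, j)) (summ_false L)

lemma int_true (L : ℕ) : Integrable dr (disc wt (fun j => stk L (true, j))) :=
  integrable_disc (f := dr) wt_nonneg (fun j => stk L (true, j)) (summ_true L)

lemma mu_int (L : ℕ) : Integrable (fun s : ℕ → ℝ => ∑' i, (2 * s i - 1)) (mu L) := by
  rw [mu_eq]
  exact (int_false L).add_measure (int_true L)

lemma mu_drift (L : ℕ) : ∫ s : ℕ → ℝ, ∑' i, (2 * s i - 1) ∂(mu L) = 7 / 8 * ((L : ℝ) - 1) := by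
  show ∫ s : ℕ → ℝ, dr s ∂(mu L) = _
  rw [mu_eq, integral_add_measure (int_false L) (int_true L),
    integral_disc (f := dr) wt_nonneg (fun j => stk L (false, j)) (summ_false L),
    integral_disc (f := dr) wt_nonneg (fun j => stk L (true, j)) (summ_true L)]
  simp_rw [dr, drift_false, drift_true]
  have h1 : ∑' j, wt j * -(4 : ℝ) ^ j = - (7 / 8) := by
    have := hasSum_wt4.neg.tsum_eq
    rw [← this]
    congr 1
    funext j
    ring
  have h2 : ∑' j, wt j * (L * (4 : ℝ) ^ j) = L * (7 / 8) := by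
    rw [← (hasSum_wt4.mul_left (L : ℝ)).tsum_eq]
    congr 1
    funext j
    ring
  rw [h1, h2]
  ring

end Q294.Cookie
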