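import Pool.Agent.Q294.Cookie.Env

/-!
# The walk is slow
-/

open MeasureTheory ProbabilityTheory Filter Topology

namespace Q294.Cookie

namespace Data

variable {S : Type} [MeasurableSpace S] (D : Data S)

theorem limsup_le {ε : ℝ} (hε : 0 < ε) :
    ∀ᵐ ω ∂D.P2, ∀ᶠ k : ℕ in atTop, (xx (D.env ω) k : ℝ) ≤ ε * k := by
  -- parameters
  obtain ⟨a, ha3, ha⟩ : ∃ a : ℕ, 3 ≤ 4 ^ a ∧ 40 * D.nbar ≤ ((4 ^ a : ℕ) : ℝ) := by
    obtain ⟨a, ha⟩ := pow_unbounded_of_one_lt (40 * D.nbar) (show (1 : ℝ) < 4 by norm_num)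
    refine ⟨a + 1, ?_, ?_⟩
    · have : 1 ≤ 4 ^ a := Nat.one_le_pow _ _ (by norm_num)
      rw [pow_succ]; omega
    · push_cast
      rw [pow_succ]
      have : (0 : ℝ) ≤ 4 ^ a := by positivity
      linarith
  set C : ℕ := ⌈2 * 8 ^ (a + 2) / D.c⌉₊ with hC
  have hc := D.c_pos
  have hCc : 2 * 8 ^ (a + 2) ≤ C * D.c := by
    have := Nat.le_ceil (2 * 8 ^ (a + 2) / D.c)
    rw [div_le_iff₀ hc] at this
    exact this
  set kk : ℕ → ℕ := fun b => 3 * 4 ^ a * 16 ^ b with hkk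
  set l : ℕ → ℕ := fun b => 4 ^ (b + 1) + C * 8 ^ b with hl
  set E : ℕ → Set (ℤ → S) := fun b => {ω | ∃ i ≤ kk b, ((b * l b : ℕ) : ℤ) ≤ xx (D.env ω) i} with hE
  have hprob : ∀ b, D.P2.real (E b) ≤ (3 / 4) ^ b := by
    intro b
    have h1 : 5 * kk b < 4 ^ (b + 1) * (2 * (2 * 4 ^ (a + b))) := by
      have e : 4 ^ (b + 1) * (2 * (2 * 4 ^ (a + b))) = 16 * (4 ^ a * 16 ^ b) := by
        rw [pow_add, pow_add, show (16 : ℕ) ^ b = 4 ^ b * 4 ^ b by rw [← mul_pow]; norm_num]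
        ring
      rw [e, hkk]
      have : 0 < 4 ^ a * 16 ^ b := by positivity
      simp only
      nlinarith
    have h2 := D.fast_subset (n := 2 * 4 ^ (a + b)) (J := 4 ^ (b + 1)) (l := l b) (r := b) h1
    have h3 := D.prob_blocks (K := 4 ^ a) (n := 2 * 4 ^ (a + b)) (J := 4 ^ (b + 1)) ha3 ha
      (by positivity) (by positivity) (by
        rw [pow_add, pow_add]
        ring_nf
        exact le_rfl) (C * 8 ^ b) b
    refine (measureReal_mono h2).trans (h3.trans ?_)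
    refine pow_le_pow_left₀ ?_ ?_ b
    · have := measureReal_le_one (μ := D.ν) (s := D.tr (4 * (2 * (2 * 4 ^ (a + b)))))
      have h4 : 0 ≤ 1 - D.ν.real (D.tr (4 * (2 * (2 * 4 ^ (a + b))))) := by linarith
      positivity
    · have h4 := D.trap (a + b + 2)
      have e : 4 * (2 * (2 * 4 ^ (a + b))) = 4 ^ (a + b + 2) := by rw [pow_succ, pow_succ]; ring
      rw [e]
      have e2 : D.ν.real {s | ∀ j < 4 ^ (a + b + 2), D.coin s j = false} =
        D.ν.real (D.tr (4 ^ (a + b + 2))) := rfl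
      rw [e2] at h4
      set p := D.ν.real (D.tr (4 ^ (a + b + 2))) with hp
      have hp1 : p ≤ 1 := measureReal_le_one
      have h5 : (1 - p) ^ (C * 8 ^ b) ≤ Real.exp (-p) ^ (C * 8 ^ b) := by
        refine pow_le_pow_left₀ (by linarith) ?_ _
        have := Real.add_one_le_exp (-p)
        linarith
      have h6 : Real.exp (-p) ^ (C * 8 ^ b) ≤ 1 / 4 := by
        rw [← Real.exp_nat_mul]
        have h7 : 2 ≤ p * ((C * 8 ^ b : ℕ) : ℝ) := by
          have h8 : D.c * (1 / 8) ^ (a + b + 2) * ((C * 8 ^ b : ℕ) : ℝ) ≤ p * ((C * 8 ^ b : ℕ) : ℝ) :=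
            mul_le_mul_of_nonneg_right h4 (Nat.cast_nonneg _)
          refine le_trans ?_ h8
          have e3 : D.c * (1 / 8) ^ (a + b + 2) * ((C * 8 ^ b : ℕ) : ℝ) = C * D.c / 8 ^ (a + 2) := by
            push_cast
            rw [show a + b + 2 = (a + 2) + b by ring, pow_add (1 / 8 : ℝ) (a + 2) b, one_div_pow,
              one_div_pow]
            field_simp
          rw [e3, le_div_iff₀ (by positivity)]
          exact hCc
        have h8 : ((C * 8 ^ b : ℕ) : ℝ) * -p ≤ -2 := by linarith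
        calc Real.exp (((C * 8 ^ b : ℕ) : ℝ) * -p) ≤ Real.exp (-2) := Real.exp_le_exp.mpr h8
          _ ≤ 1 / 4 := by
            rw [Real.exp_neg, ← one_div]
            apply one_div_le_one_div_of_le (by norm_num)
            have h9 : Real.exp 2 = Real.exp 1 ^ 2 := by rw [← Real.exp_nat_mul]; norm_num
            rw [h9]
            have h10 := Real.exp_one_gt_d9
            nlinarith
      linarith
  have hae : ∀ᵐ ω ∂D.P2, ∀ᶠ b in atTop, ω ∉ E b := by
    refine ae_eventually_notMem ?_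
    have hs : Summable fun b : ℕ => (3 / 4 : ℝ) ^ b :=
      summable_geometric_of_lt_one (by norm_num) (by norm_num)
    refine ne_top_of_le_ne_top hs.tsum_ofReal_ne_top (ENNReal.tsum_le_tsum fun b => ?_)
    rw [← ENNReal.ofReal_toReal (measure_ne_top D.P2 (E b))]
    exact ENNReal.ofReal_le_ofReal (hprob b)
  have hlim : ∀ᶠ b : ℕ in atTop, ((b * l b : ℕ) : ℝ) ≤ ε / 16 * kk b := by
    have h1 : Tendsto (fun b : ℕ => (b : ℝ) * (1 / 2) ^ b) atTop (𝓝 0) :=
      tendsto_self_mul_const_pow_of_lt_one (by norm_num) (by norm_num)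
    have h2 : (0 : ℝ) < ε / 16 * (3 * 4 ^ a) / (4 + C) := by positivity
    filter_upwards [h1.eventually (gt_mem_nhds h2)] with b hb
    have h3 : (b : ℝ) * (4 + C) ≤ ε / 16 * (3 * 4 ^ a) * 2 ^ b := by
      rw [lt_div_iff₀ (by positivity), one_div_pow] at hb
      have h4 : (b : ℝ) * (4 + C) / 2 ^ b < ε / 16 * (3 * 4 ^ a) := by
        calc (b : ℝ) * (4 + C) / 2 ^ b = b * (1 / 2 ^ b) * (4 + C) := by ring
          _ < _ := hb
      rw [div_lt_iff₀ (by positivity)] at h4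
      exact h4.le
    have h4 : (4 : ℝ) ^ b ≤ 8 ^ b := pow_le_pow_left₀ (by norm_num) (by norm_num) b
    simp only [hl, hkk]
    push_cast
    have e : (16 : ℝ) ^ b = 2 ^ b * 8 ^ b := by rw [← mul_pow]; norm_num
    have h5 : (0 : ℝ) < 8 ^ b := by positivity
    calc (b : ℝ) * (4 ^ (b + 1) + C * 8 ^ b) ≤ b * ((4 + C) * 8 ^ b) := by
          refine mul_le_mul_of_nonneg_left ?_ (Nat.cast_nonneg _)
          rw [pow_succ]
          nlinarith
      _ = (b * (4 + C)) * 8 ^ b := by ring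
      _ ≤ (ε / 16 * (3 * 4 ^ a) * 2 ^ b) * 8 ^ b := mul_le_mul_of_nonneg_right h3 h5.le
      _ = ε / 16 * (3 * 4 ^ a * 16 ^ b) := by rw [e]; ring
  filter_upwards [hae] with ω hω
  obtain ⟨b0, hb0⟩ := eventually_atTop.mp (hω.and hlim)
  filter_upwards [eventually_ge_atTop (kk b0)] with k hk
  -- find the scale
  have hk1 : (1 : ℝ) ≤ k / (3 * 4 ^ a) := by
    rw [le_div_iff₀ (by positivity)]
    have h1 : 3 * 4 ^ a ≤ kk b0 := Nat.le_mul_of_pos_right _ (by positivity)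
    have h2 : 3 * 4 ^ a ≤ k := h1.trans hk
    have h3 : ((3 * 4 ^ a : ℕ) : ℝ) ≤ k := by exact_mod_cast h2
    push_cast at h3
    linarith
  obtain ⟨b, hb1, hb2⟩ := exists_nat_pow_near hk1 (show (1 : ℝ) < 16 by norm_num)
  rw [le_div_iff₀ (by positivity)] at hb1
  rw [div_lt_iff₀ (by positivity)] at hb2
  have hb1' : (kk b : ℝ) ≤ k := by
    simp only [hkk]; push_cast; linarith
  have hb2' : (k : ℝ) < kk (b + 1) := by
    simp only [hkk]; push_cast; linarith
  have hbb : b0 ≤ b + 1 := by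
    by_contra hcon
    push Not at hcon
    have h1 : kk (b + 1) ≤ kk b0 := by
      simp only [hkk]
      exact Nat.mul_le_mul_left _ (Nat.pow_le_pow_right (by norm_num) (by omega))
    have h2 : kk (b + 1) ≤ k := h1.trans hk
    have h3 : (kk (b + 1) : ℝ) ≤ k := by exact_mod_cast h2
    linarith
  obtain ⟨h1, h2⟩ := hb0 (b + 1) hbb
  have h3 : ¬ (((b + 1) * l (b + 1) : ℕ) : ℤ) ≤ xx (D.env ω) k := fun h =>
    h1 ⟨k, by exact_mod_cast hb2'.le, h⟩
  push Not at h3
  have h4 : (xx (D.env ω) k : ℝ) < (((b + 1) * l (b + 1) : ℕ) : ℝ) := by exact_mod_cast h3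
  have h5 : (kk (b + 1) : ℝ) = 16 * kk b := by
    simp only [hkk]; push_cast; ring
  rw [h5] at h2
  have h6 : ε * kk b ≤ ε * k := mul_le_mul_of_nonneg_left hb1' hε.le
  linarith

end Data

end Q294.Cookie
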